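import Pool.Agent.Q295.Fav.Loc

/-! Attempts to cross a maximal level during an excursion. -/

set_option autoImplicit false

namespace Q295.Fav

open MeasureTheory ProbabilityTheory Filter Topology Function Finset Classical

/-- the state of the attempt: the level and the number of crossings which are still missing -/
noncomputable def st (s : ℕ → ℤ) : ℕ → Option (ℕ × ℕ)
  | 0 => none
  | n + 1 =>
    if s (n + 1) = 0 then (if Good s (n + 1) then some (Mx s (n + 1), Mx s (n + 1) + 1) else none)
    else if s (n + 1) < 0 then none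
    else match st s n with
      | none => none
      | some (m, r) => if s n = m ∧ s (n + 1) = m + 1 then (if r ≤ 1 then none else some (m, r - 1))
          else some (m, r)

theorem up_congr {s t : ℕ → ℤ} (x : ℤ) (n : ℕ) (h : ∀ k ≤ n, s k = t k) : up s x n = up t x n := by
  unfold up
  congr 1
  apply filter_congr
  intro k hk
  rw [mem_range] at hk
  rw [h k hk.le, h (k + 1) hk]

theorem dn_congr {s t : ℕ → ℤ} (x : ℤ) (n : ℕ) (h : ∀ k ≤ n, s k = t k) : dn s x n = dn t x n := by
  unfold dn
  congr 1
  apply filter_congr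
  intro k hk
  rw [mem_range] at hk
  rw [h k hk.le, h (k + 1) hk]

theorem Mx_congr {s t : ℕ → ℤ} (n : ℕ) : (∀ k ≤ n, s k = t k) → Mx s n = Mx t n := by
  induction n with
  | zero => intro _; rfl
  | succ n ih =>
    intro h
    show max (Mx s n) _ = max (Mx t n) _
    rw [ih (fun k hk => h k (by omega)), h (n + 1) le_rfl, h n (by omega), up_congr _ _ h, dn_congr _ _ h]

theorem Good_congr {s t : ℕ → ℤ} (n : ℕ) (h : ∀ k ≤ n, s k = t k) : Good s n ↔ Good t n := by
  unfold Good
  rw [h n le_rfl, Mx_congr n h, up_congr 0 n h]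
  constructor
  · rintro ⟨h1, x, h2, h3, h4⟩
    exact ⟨h1, x, h2, by rw [← up_congr x n h]; exact h3, h4⟩
  · rintro ⟨h1, x, h2, h3, h4⟩
    exact ⟨h1, x, h2, by rw [up_congr x n h]; exact h3, h4⟩

theorem st_congr {s t : ℕ → ℤ} (n : ℕ) : (∀ k ≤ n, s k = t k) → st s n = st t n := by
  induction n with
  | zero => intro _; rfl
  | succ n ih =>
    intro h
    have h1 := ih (fun k hk => h k (by omega))
    unfold st
    rw [h1, h (n + 1) le_rfl, h n (by omega), Mx_congr _ h]
    simp only [Good_congr _ h]

theorem not_good_zero (s : ℕ → ℤ) : ¬ Good s 0 := by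
  rintro ⟨-, x, -, h, h'⟩
  simp [Mx] at h'

theorem st_at_zero {s : ℕ → ℤ} {n : ℕ} (h : s n = 0) :
    st s n = if Good s n then some (Mx s n, Mx s n + 1) else none := by
  cases n with
  | zero => rw [if_neg (not_good_zero s)]; rfl
  | succ n => show (if _ then _ else _) = _; rw [if_pos h]

/-- the transition away from the origin -/
noncomputable def nxt (o : Option (ℕ × ℕ)) (x y : ℤ) : Option (ℕ × ℕ) :=
  match o with
  | none => none
  | some (m, r) => if x = m ∧ y = m + 1 then (if r ≤ 1 then none else some (m, r - 1)) else some (m, r)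

theorem st_pos {s : ℕ → ℤ} {n : ℕ} (h : 0 < s (n + 1)) : st s (n + 1) = nxt (st s n) (s n) (s (n + 1)) := by
  show (if _ then _ else _) = _
  rw [if_neg h.ne', if_neg (by omega)]
  rfl

theorem st_neg {s : ℕ → ℤ} {n : ℕ} (h : s (n + 1) < 0) : st s (n + 1) = none := by
  show (if _ then _ else _) = _
  rw [if_neg h.ne, if_pos h]

theorem Good_pos {s : ℕ → ℤ} {n : ℕ} (h : Good s n) : 1 ≤ Mx s n := by
  obtain ⟨-, x, -, -, h⟩ := h
  omega

/-- what the state means -/
theorem st_inv {s : ℕ → ℤ} (h : IsWalk s) : ∀ n m r, st s n = some (m, r) →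
    1 ≤ r ∧ r ≤ m + 1 ∧ 1 ≤ m ∧ 0 ≤ s n ∧ ∃ t ≤ n, Good s t ∧ Mx s t = m ∧ (∀ k, t < k → k ≤ n → 0 < s k) ∧
      up s m n + r = up s m t + m + 1 := by
  intro n
  induction n with
  | zero => intro m r h1; simp [st] at h1
  | succ n ih =>
    intro m r h1
    rcases lt_trichotomy (s (n + 1)) 0 with h2 | h2 | h2
    · rw [st_neg h2] at h1; simp at h1
    · rw [st_at_zero h2] at h1
      split_ifs at h1 with h3
      simp only [Option.some.injEq, Prod.mk.injEq] at h1
      obtain ⟨rfl, rfl⟩ := h1
      exact ⟨by omega, le_rfl, Good_pos h3, h2.ge, n + 1, le_rfl, h3, rfl,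
        fun k h4 h5 => by omega, by omega⟩
    · rw [st_pos h2] at h1
      rcases hst : st s n with _ | ⟨m', r'⟩
      · rw [hst] at h1; simp [nxt] at h1
      · rw [hst] at h1
        obtain ⟨i1, i2, i3, i4, t, i5, i6, i7, i8, i9⟩ := ih m' r' hst
        unfold nxt at h1
        simp only at h1
        split_ifs at h1 with h3 h4
        · simp only [Option.some.injEq, Prod.mk.injEq] at h1
          obtain ⟨rfl, rfl⟩ := h1
          refine ⟨by omega, by omega, i3, h2.le, t, by omega, i6, i7, ?_, ?_⟩
          · intro k h5 h6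
            rcases Nat.lt_or_ge n k with h7 | h7
            · have : k = n + 1 := by omega
              rw [this]; exact h2
            · exact i8 k h5 h7
          · rw [up_succ, if_pos h3]; omega
        · simp only [Option.some.injEq, Prod.mk.injEq] at h1
          obtain ⟨rfl, rfl⟩ := h1
          refine ⟨by omega, by omega, i3, h2.le, t, by omega, i6, i7, ?_, ?_⟩
          · intro k h5 h6
            rcases Nat.lt_or_ge n k with h7 | h7
            · have : k = n + 1 := by omega
              rw [this]; exact h2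
            · exact i8 k h5 h7
          · rw [up_succ, if_neg h3]; omega

/-- the attempt succeeds with the next step -/
def Suc (s : ℕ → ℤ) (n : ℕ) (y : ℤ) : Prop :=
  ∃ m r : ℕ, st s n = some (m, r) ∧ r ≤ 1 ∧ s n = m ∧ y = m + 1

/-- a success gives four favourite sites -/
theorem Suc_four {a b : ℤ} (hab : (a = 0 ∧ b = 1) ∨ (a = 1 ∧ b = 0)) {s : ℕ → ℤ} (h : IsWalk s) {n : ℕ}
    (hn : Suc s n (s (n + 1))) : ∃ t ≤ n, Good s t ∧ (∀ k, t < k → k ≤ n + 1 → 0 < s k) ∧
      ∃ k, t ≤ k ∧ k < n + 1 ∧ 4 ≤ (Ks a b s k).ncard ∧ Mx s k < Mx s (k + 1) := by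
  obtain ⟨m, r, h1, h2, h3, h4⟩ := hn
  obtain ⟨i1, i2, i3, i4, t, i5, i6, i7, i8, i9⟩ := st_inv h n m r h1
  have hpos : ∀ k, t < k → k ≤ n + 1 → 0 < s k := by
    intro k h5 h6
    rcases Nat.lt_or_ge n k with h7 | h7
    · have : k = n + 1 := by omega
      rw [this, h4]; omega
    · exact i8 k h5 h7
  refine ⟨t, i5, i6, hpos, ?_⟩
  apply four_of_cross hab h (by omega) i6 hpos
  have h5 := (up_dn_le s (n + 1) m).1
  rw [up_succ, if_pos ⟨h3, h4⟩] at h5
  omega

/-- the value of the state -/
noncomputable def gv (o : Option (ℕ × ℕ)) (y : ℤ) : ℝ :=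
  match o with
  | none => 0
  | some (m, r) => ((m : ℝ) / (m + 1)) ^ r * (min (y : ℝ) m / m)

/-- the value of the state after the step to `y` -/
noncomputable def gn (s : ℕ → ℤ) (n : ℕ) (y : ℤ) : ℝ := if 0 < y then gv (nxt (st s n) (s n) y) y else 0

noncomputable def qf (m : ℕ) : ℝ := ((m : ℝ) / (m + 1)) ^ (m + 1) / (2 * m)

noncomputable def Ph (s : ℕ → ℤ) (n : ℕ) : ℝ :=
  ∑ k ∈ range n, ((if Suc s k (s (k + 1)) then (1 : ℝ) else 0) - if Good s k then qf (Mx s k) else 0) +
    gv (st s n) (s n)

theorem gv_succ {s : ℕ → ℤ} (n : ℕ) : gv (st s (n + 1)) (s (n + 1)) = gn s n (s (n + 1)) := by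
  unfold gn
  rcases lt_trichotomy (s (n + 1)) 0 with h | h | h
  · rw [st_neg h, if_neg (by omega)]; rfl
  · rw [if_neg (by omega), h]
    rcases st s (n + 1) with _ | ⟨m, r⟩
    · rfl
    · unfold gv
      simp
  · rw [st_pos h, if_pos h]

theorem gv_zero (o : Option (ℕ × ℕ)) : gv o 0 = 0 := by
  rcases o with _ | ⟨m, r⟩
  · rfl
  · unfold gv; simp

theorem Suc_congr {s t : ℕ → ℤ} (n : ℕ) (y : ℤ) (h : ∀ k ≤ n, s k = t k) : Suc s n y ↔ Suc t n y := by
  unfold Suc
  rw [st_congr n h, h n le_rfl]

/-- the increment of the functional -/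
noncomputable def Dph (s : ℕ → ℤ) (n : ℕ) (y : ℤ) : ℝ :=
  ((if Suc s n y then (1 : ℝ) else 0) - if Good s n then qf (Mx s n) else 0) + (gn s n y - gv (st s n) (s n))

theorem Dph_bal {s : ℕ → ℤ} (h : IsWalk s) (n : ℕ) : Dph s n (s n + 1) + Dph s n (s n - 1) = 0 := by
  by_cases h0 : s n = 0
  · have hns : ∀ y, ¬ Suc s n y := by
      rintro y ⟨m, r, h1, h2, h3, -⟩
      have := (st_inv h n m r h1).2.2.1
      omega
    have hg : gn s n (s n - 1) = 0 := by unfold gn; rw [if_neg (by omega)]
    unfold Dph
    rw [hg, if_neg (hns _), if_neg (hns _), h0, gv_zero, zero_add]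
    unfold gn
    rw [if_pos one_pos, st_at_zero h0]
    by_cases hG : Good s n
    · rw [if_pos hG, if_pos hG]
      have hM : 1 ≤ Mx s n := Good_pos hG
      have hM' : (1 : ℝ) ≤ Mx s n := by exact_mod_cast hM
      unfold nxt
      simp only
      rw [h0, if_neg (by omega)]
      unfold gv qf
      simp only
      rw [min_eq_left (by push_cast; exact hM')]
      field_simp
      push_cast
      ring
    · rw [if_neg hG, if_neg hG]
      simp [nxt, gv]
  · have hG : ¬ Good s n := fun hG => h0 hG.1
    unfold Dph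
    rw [if_neg hG]
    rcases hst : st s n with _ | ⟨m, r⟩
    · have hns : ∀ y, ¬ Suc s n y := by
        rintro y ⟨m, r, h1, -⟩
        rw [hst] at h1; simp at h1
      rw [if_neg (hns _), if_neg (hns _)]
      unfold gn
      rw [hst]
      simp [nxt, gv]
    · obtain ⟨i1, i2, i3, i4, -⟩ := st_inv h n m r hst
      have hpos : 0 < s n := by omega
      have hm : (1 : ℝ) ≤ m := by exact_mod_cast i3
      have hgm : gn s n (s n - 1) = ((m : ℝ) / (m + 1)) ^ r * (min ((s n : ℝ) - 1) m / m) := by
        unfold gn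
        by_cases h1 : 0 < s n - 1
        · rw [if_pos h1, hst]
          unfold nxt
          simp only
          rw [if_neg (by omega)]
          unfold gv
          push_cast
          rfl
        · rw [if_neg h1]
          have h2 : s n = 1 := by omega
          rw [h2]
          simp
      by_cases hx : s n = m
      · -- crossing
        have hgm' : gn s n (s n - 1) = ((m : ℝ) / (m + 1)) ^ r * (((m : ℝ) - 1) / m) := by
          rw [hgm, hx]
          rw [min_eq_left (by push_cast; linarith)]
          push_cast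
          rfl
        have hns : ¬ Suc s n (s n - 1) := by
          rintro ⟨m', r', -, -, h3, h4⟩
          omega
        rw [hgm', if_neg hns]
        have hgv : gv (some (m, r)) (s n) = ((m : ℝ) / (m + 1)) ^ r := by
          unfold gv
          simp only
          rw [hx, min_eq_left (by push_cast; exact le_rfl)]
          push_cast
          rw [div_self (by linarith), mul_one]
        rw [hgv]
        by_cases hr : r ≤ 1
        · have hr1 : r = 1 := by omega
          have hs : Suc s n (s n + 1) := ⟨m, r, hst, hr, hx, by rw [hx]⟩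
          rw [if_pos hs]
          have : gn s n (s n + 1) = 0 := by
            unfold gn
            rw [hst, if_pos (by omega)]
            unfold nxt
            simp only
            rw [if_pos ⟨hx, by rw [hx]⟩, if_pos hr]
            rfl
          rw [this, hr1]
          field_simp
          ring
        · have hs : ¬ Suc s n (s n + 1) := by
            rintro ⟨m', r', h1, h2, -⟩
            rw [hst] at h1
            simp only [Option.some.injEq, Prod.mk.injEq] at h1
            omega
          rw [if_neg hs]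
          obtain ⟨r', rfl⟩ : ∃ r', r = r' + 1 := ⟨r - 1, by omega⟩
          have : gn s n (s n + 1) = ((m : ℝ) / (m + 1)) ^ r' := by
            unfold gn
            rw [hst, if_pos (by omega)]
            unfold nxt
            simp only
            rw [if_pos ⟨hx, by rw [hx]⟩, if_neg hr]
            unfold gv
            simp only
            rw [Nat.add_sub_cancel, hx, min_eq_right (by push_cast; linarith), div_self (by linarith),
              mul_one]
          rw [this, pow_succ]
          field_simp
          ring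
      · have hns : ∀ y, ¬ Suc s n y := by
          rintro y ⟨m', r', h1, -, h3, -⟩
          rw [hst] at h1
          simp only [Option.some.injEq, Prod.mk.injEq] at h1
          omega
        rw [if_neg (hns _), if_neg (hns _), hgm]
        have hgp : gn s n (s n + 1) = ((m : ℝ) / (m + 1)) ^ r * (min ((s n : ℝ) + 1) m / m) := by
          unfold gn
          rw [if_pos (by omega), hst]
          unfold nxt
          simp only
          rw [if_neg (fun hc => hx hc.1)]
          unfold gv
          push_cast
          rfl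
        rw [hgp]
        unfold gv
        simp only
        rcases lt_or_gt_of_ne hx with h1 | h1
        · have h2 : (s n : ℝ) + 1 ≤ m := by exact_mod_cast h1
          rw [min_eq_left h2, min_eq_left (by linarith), min_eq_left (by linarith)]
          ring
        · have h2 : (m : ℝ) + 1 ≤ s n := by exact_mod_cast h1
          rw [min_eq_right (by linarith), min_eq_right (by linarith), min_eq_right (by linarith)]
          ring

theorem Ph_inc : Inc Ph Dph where
  zero s t h := by unfold Ph; simp [st, gv]
  succ s n := by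
    unfold Ph Dph
    rw [sum_range_succ, gv_succ]
    ring
  congr s t n y h := by
    unfold Dph gn
    rw [st_congr n h, Mx_congr n h, h n le_rfl]
    simp only [Suc_congr n y h, Good_congr n h]
  bal s n h := Dph_bal h n

theorem gv_range {s : ℕ → ℤ} (h : IsWalk s) (n : ℕ) : 0 ≤ gv (st s n) (s n) ∧ gv (st s n) (s n) ≤ 1 := by
  rcases hst : st s n with _ | ⟨m, r⟩
  · exact ⟨le_rfl, zero_le_one⟩
  · obtain ⟨i1, i2, i3, i4, -⟩ := st_inv h n m r hst
    have hm : (1 : ℝ) ≤ m := by exact_mod_cast i3
    have h0 : (0 : ℝ) ≤ s n := by exact_mod_cast i4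
    unfold gv
    simp only
    have h1 : 0 ≤ (m : ℝ) / (m + 1) := by positivity
    have h2 : (m : ℝ) / (m + 1) ≤ 1 := by rw [div_le_one (by positivity)]; linarith
    have h3 : 0 ≤ min (s n : ℝ) m / m := div_nonneg (le_min h0 (by linarith)) (by linarith)
    have h4 : min (s n : ℝ) m / m ≤ 1 := by rw [div_le_one (by linarith)]; exact min_le_right _ _
    exact ⟨mul_nonneg (pow_nonneg h1 _) h3, by
      calc _ ≤ (1 : ℝ) * 1 := mul_le_mul (pow_le_one₀ h1 h2) h4 h3 zero_le_one
        _ = 1 := one_mul 1⟩

theorem qf_range {m : ℕ} (hm : 1 ≤ m) : Real.exp (-2) / 2 * (1 / ((m : ℝ) + 1)) ≤ qf m ∧ qf m ≤ 1 := by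
  have hm' : (1 : ℝ) ≤ m := by exact_mod_cast hm
  have h1 : 0 ≤ (m : ℝ) / (m + 1) := by positivity
  have h2 : (m : ℝ) / (m + 1) ≤ 1 := by rw [div_le_one (by positivity)]; linarith
  constructor
  · have h3 : Real.exp (-2) ≤ ((m : ℝ) / (m + 1)) ^ (m + 1) := by
      have h4 : ((m : ℝ) + 1) / m ≤ Real.exp (1 / m) := by
        have := Real.add_one_le_exp (1 / (m : ℝ))
        rw [add_div, div_self (by linarith), add_comm]
        exact this
      have h5 : (((m : ℝ) + 1) / m) ^ (m + 1) ≤ Real.exp 2 := by
        calc (((m : ℝ) + 1) / m) ^ (m + 1) ≤ Real.exp (1 / m) ^ (m + 1) :=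
              pow_le_pow_left₀ (by positivity) h4 _
          _ = Real.exp (((m : ℝ) + 1) / m) := by
              rw [← Real.exp_nat_mul]; congr 1; push_cast; ring
          _ ≤ Real.exp 2 := by
              apply Real.exp_le_exp.2
              rw [div_le_iff₀ (by linarith)]; linarith
      rw [Real.exp_neg, ← inv_div ((m : ℝ) + 1) m, inv_pow]
      exact inv_anti₀ (by positivity) h5
    unfold qf
    rw [div_mul_div_comm, mul_one, mul_comm 2 ((m : ℝ) + 1)]
    rw [div_le_div_iff₀ (by positivity) (by positivity)]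
    have h6 : 0 ≤ ((m : ℝ) / (m + 1)) ^ (m + 1) := pow_nonneg h1 _
    nlinarith [Real.exp_pos (-2)]
  · unfold qf
    rw [div_le_one (by positivity)]
    have := pow_le_one₀ (n := m + 1) h1 h2
    linarith

theorem Ph_bdd {s : ℕ → ℤ} (h : IsWalk s) (n : ℕ) : |Ph s (n + 1) - Ph s n| ≤ 3 := by
  have h1 : Ph s (n + 1) - Ph s n = ((if Suc s n (s (n + 1)) then (1 : ℝ) else 0) -
      if Good s n then qf (Mx s n) else 0) + (gv (st s (n + 1)) (s (n + 1)) - gv (st s n) (s n)) := by
    unfold Ph
    rw [sum_range_succ]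
    ring
  obtain ⟨h2, h3⟩ := gv_range h n
  obtain ⟨h4, h5⟩ := gv_range h (n + 1)
  have h6 : 0 ≤ (if Good s n then qf (Mx s n) else 0) ∧ (if Good s n then qf (Mx s n) else 0) ≤ 1 := by
    split_ifs with hG
    · obtain ⟨h7, h8⟩ := qf_range (Good_pos hG)
      refine ⟨le_trans ?_ h7, h8⟩
      positivity
    · exact ⟨le_rfl, zero_le_one⟩
  have h9 : (0 : ℝ) ≤ (if Suc s n (s (n + 1)) then (1 : ℝ) else 0) ∧
      (if Suc s n (s (n + 1)) then (1 : ℝ) else 0) ≤ 1 := by split_ifs <;> norm_num
  rw [h1, abs_le]
  constructor <;> linarith [h6.1, h6.2, h9.1, h9.2]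

variable {Ω : Type*} [mΩ : MeasurableSpace Ω] {μ : Measure Ω}

/-- infinitely many successes when the good times have infinite weight -/
theorem successes [IsProbabilityMeasure μ] {b : ℕ → Ω → Bool} (hb : ∀ k, Measurable (b k))
    (hi : iIndepFun b μ) (hfair : ∀ n, μ {ω | b n ω = true} = 1 / 2) :
    ∀ᵐ ω ∂μ, (∀ B : ℝ, ∃ n, B < ∑ k ∈ range n, (if Good (wk (fun j => b j ω)) k then
      wt (wk (fun j => b j ω)) k else 0)) →
      ∀ N, ∃ n, N ≤ n ∧ Suc (wk (fun j => b j ω)) n (wk (fun j => b j ω) (n + 1)) := by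
  filter_upwards [not_bot Ph_inc.adp Ph_inc.avg (fun u n => Ph_bdd (wk_walk u) n) hb hi hfair]
    with ω h1 h2
  set s := wk (fun j => b j ω) with hs
  have hw : IsWalk s := wk_walk _
  by_contra hc
  push Not at hc
  obtain ⟨N, hN⟩ := hc
  apply h1
  have h3 : ∀ n, ∑ k ∈ range n, (if Suc s k (s (k + 1)) then (1 : ℝ) else 0) ≤ (min n N : ℕ) := by
    intro n
    induction n with
    | zero => simp
    | succ n ih =>
      rw [sum_range_succ]
      by_cases hn : N ≤ n
      · rw [if_neg (hN n hn), add_zero, min_eq_right (by omega)]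
        rw [min_eq_right (by omega)] at ih
        exact ih
      · rw [min_eq_left (by omega)] at ih ⊢
        push_cast
        have : (if Suc s n (s (n + 1)) then (1 : ℝ) else 0) ≤ 1 := by split_ifs <;> norm_num
        linarith
  have hc0 : 0 < Real.exp (-2) / 2 := by positivity
  have h4 : Tendsto (fun n => ∑ k ∈ range n, (if Good s k then wt s k else 0)) atTop atTop := by
    apply tendsto_atTop_atTop_of_monotone
    · apply monotone_nat_of_le_succ
      intro n
      rw [sum_range_succ]
      have := wt_pos s n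
      split_ifs <;> linarith
    · intro B
      obtain ⟨n, hn⟩ := h2 B
      exact ⟨n, hn.le⟩
  have h5 : ∀ n, Ph s n ≤ -(Real.exp (-2) / 2 * ∑ k ∈ range n, (if Good s k then wt s k else 0)) +
      (N + 1) := by
    intro n
    have h6 : Real.exp (-2) / 2 * ∑ k ∈ range n, (if Good s k then wt s k else 0) ≤
        ∑ k ∈ range n, (if Good s k then qf (Mx s k) else 0) := by
      rw [mul_sum]
      apply sum_le_sum
      intro k _
      split_ifs with hG
      · exact (qf_range (Good_pos hG)).1
      · rw [mul_zero]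
    have h7 := h3 n
    have h8 : ((min n N : ℕ) : ℝ) ≤ N := by exact_mod_cast min_le_right _ _
    have h9 := (gv_range hw n).2
    unfold Ph
    rw [sum_sub_distrib]
    linarith
  show Tendsto (fun n => Ph s n) atTop atBot
  apply tendsto_atBot_mono h5
  apply tendsto_atBot_add_const_right
  exact tendsto_neg_atTop_atBot.comp (h4.const_mul_atTop hc0)

/-- infinitely many good times with four sites -/
theorem often_of {a b' : ℤ} (hab : (a = 0 ∧ b' = 1) ∨ (a = 1 ∧ b' = 0)) {s : ℕ → ℤ} (h : IsWalk s)
    (h1 : ∀ B : ℝ, ∃ n, B < ∑ k ∈ range n, (if Good s k then wt s k else 0))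
    (h2 : ∀ N, ∃ n, N ≤ n ∧ Suc s n (s (n + 1))) :
    {n | 4 ≤ (Ks a b' s n).ncard ∧ Mx s n < Mx s (n + 1)}.Infinite := by
  rw [Set.infinite_iff_exists_gt]
  intro N
  have h3 : ∃ g, N < g ∧ Good s g := by
    by_contra hc
    push Not at hc
    obtain ⟨n, hn⟩ := h1 (N + 1)
    have h4 : ∀ n, ∑ k ∈ range n, (if Good s k then wt s k else 0) ≤ (min n (N + 1) : ℕ) := by
      intro n
      induction n with
      | zero => simp
      | succ n ih =>
        rw [sum_range_succ]
        by_cases hn : N + 1 ≤ n
        · rw [if_neg (hc n (by omega)), add_zero, min_eq_right (by omega)]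
          rw [min_eq_right (by omega)] at ih
          exact ih
        · rw [min_eq_left (by omega)] at ih ⊢
          push_cast
          have h5 : wt s n ≤ 1 := by
            unfold wt
            rw [div_le_one (by positivity)]
            have : (0 : ℝ) ≤ Mx s n := Nat.cast_nonneg _
            linarith
          have : (if Good s n then wt s n else 0) ≤ 1 := by split_ifs <;> linarith
          linarith
    have h5 : ((min n (N + 1) : ℕ) : ℝ) ≤ ((N + 1 : ℕ) : ℝ) := by exact_mod_cast min_le_right _ _
    have h6 := h4 n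
    push_cast at h5 h6
    linarith
  obtain ⟨g, hg1, hg2⟩ := h3
  obtain ⟨n, hn1, hn2⟩ := h2 g
  obtain ⟨t, ht1, ht2, ht3, k, hk1, hk2, hk3, hk4⟩ := Suc_four hab h hn2
  refine ⟨k, ⟨hk3, hk4⟩, ?_⟩
  have : g ≤ t := by
    by_contra hc
    push Not at hc
    have := ht3 g hc (by omega)
    rw [hg2.1] at this
    exact lt_irrefl _ this
  omega

end Q295.Fav
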