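import Pool.Agent.Q295.Fav.Att

/-! Four favourite one-sided sites infinitely often. -/

set_option autoImplicit false

namespace Q295.Fav

open MeasureTheory ProbabilityTheory Filter Topology Function Finset Classical

variable {Ω : Type*} [mΩ : MeasurableSpace Ω] {μ : Measure Ω}

theorem wk_not (u : ℕ → Bool) : wk (fun k => !u k) = ng (wk u) := by
  funext n
  unfold wk ng
  rw [← Finset.sum_neg_distrib]
  apply Finset.sum_congr rfl
  intro k _
  rcases hu : u k with _ | _ <;> simp [hu]

/-- for the walk driven by fair bits -/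
theorem four_often [IsProbabilityMeasure μ] {b : ℕ → Ω → Bool} (hb : ∀ k, Measurable (b k))
    (hi : iIndepFun b μ) (hfair : ∀ n, μ {ω | b n ω = true} = 1 / 2) {c d : ℤ}
    (hcd : (c = 0 ∧ d = 1) ∨ (c = 1 ∧ d = 0)) :
    ∀ᵐ ω ∂μ, {n | 4 ≤ (Ks c d (wk (fun k => b k ω)) n).ncard ∧
      Mx (wk (fun k => b k ω)) n < Mx (wk (fun k => b k ω)) (n + 1)}.Infinite := by
  have hb' : ∀ k, Measurable (fun ω => !(b k ω)) := fun k =>
    (measurable_of_countable (fun c : Bool => !c)).comp (hb k)
  have hi' : iIndepFun (fun k ω => !(b k ω)) μ :=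
    hi.comp (fun _ c => !c) (fun _ => measurable_of_countable _)
  have hfair' : ∀ n, μ {ω | (!(b n ω)) = true} = 1 / 2 := by
    intro n
    have h1 : {ω | (!(b n ω)) = true} = {ω | b n ω = true}ᶜ := by
      ext ω; simp
    have h2 : MeasurableSet {ω | b n ω = true} := hb n (measurableSet_singleton true)
    rw [h1, prob_compl_eq_one_sub h2, hfair n]
    simp
  filter_upwards [returns_wt hb hi hfair, successes hb hi hfair, successes hb' hi' hfair']
    with ω h1 h2 h3
  set s := wk (fun k => b k ω) with hs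
  have hw : IsWalk s := wk_walk _
  have hng : wk (fun k => !(b k ω)) = ng s := wk_not (fun k => b k ω)
  rw [hng] at h3
  have hcd1 : c + d = 1 := by rcases hcd with h | h <;> omega
  by_cases hA : ∀ B : ℝ, ∃ n, B < ∑ k ∈ range n, (if Good s k then wt s k else 0)
  · exact often_of hcd hw hA (h2 hA)
  · have hB : ∀ B : ℝ, ∃ n, B < ∑ k ∈ range n, (if Good (ng s) k then wt (ng s) k else 0) := by
      intro B
      push Not at hA
      obtain ⟨A, hA⟩ := hA
      obtain ⟨n, hn⟩ := h1 (2 * (A + B) + 1)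
      refine ⟨n, ?_⟩
      have h4 := all_le hw n
      have h5 := hA n
      linarith
    have h4 := often_of hcd (ng_walk hw) hB (h3 hB)
    refine h4.mono ?_
    rintro n ⟨h5, h6⟩
    rw [Ks_ng hcd1] at h5
    rw [Mx_ng, Mx_ng] at h6
    exact ⟨h5, h6⟩

/-- for the simple random walk with independent steps `X k` -/
theorem four_often_walk [IsProbabilityMeasure μ] {X : ℕ → Ω → ℤ} (hX : ∀ k, Measurable (X k))
    (hi : iIndepFun X μ) (hp : ∀ k, μ {ω | X k ω = 1} = 1 / 2) (hm : ∀ k, μ {ω | X k ω = -1} = 1 / 2)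
    {c d : ℤ} (hcd : (c = 0 ∧ d = 1) ∨ (c = 1 ∧ d = 0)) :
    ∀ᵐ ω ∂μ, IsWalk (fun n => ∑ k ∈ range n, X k ω) ∧
      {n | 4 ≤ (Ks c d (fun n => ∑ k ∈ range n, X k ω) n).ncard ∧
      Mx (fun n => ∑ k ∈ range n, X k ω) n < Mx (fun n => ∑ k ∈ range n, X k ω) (n + 1)}.Infinite := by
  have hmeas : Measurable (fun x : ℤ => decide (x = 1)) := measurable_of_countable _
  have hb : ∀ k, Measurable (fun ω => decide (X k ω = 1)) := fun k => hmeas.comp (hX k)
  have hi' : iIndepFun (fun k ω => decide (X k ω = 1)) μ :=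
    hi.comp (fun _ x => decide (x = 1)) (fun _ => hmeas)
  have hfair : ∀ k, μ {ω | decide (X k ω = 1) = true} = 1 / 2 := by
    intro k
    simp only [decide_eq_true_eq]
    exact hp k
  have hpm : ∀ᵐ ω ∂μ, ∀ k, X k ω = 1 ∨ X k ω = -1 := by
    rw [ae_all_iff]
    intro k
    have hd : Disjoint {ω | X k ω = 1} {ω | X k ω = -1} := by
      rw [Set.disjoint_left]
      intro ω h1 h2
      have h3 : X k ω = 1 := h1
      have h4 : X k ω = -1 := h2
      omega
    have h1 : μ ({ω | X k ω = 1} ∪ {ω | X k ω = -1}) = 1 := by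
      rw [measure_union hd (hX k (measurableSet_singleton (-1))), hp, hm]
      exact ENNReal.add_halves 1
    have h2 : MeasurableSet ({ω | X k ω = 1} ∪ {ω | X k ω = -1}) :=
      (hX k (measurableSet_singleton 1)).union (hX k (measurableSet_singleton (-1)))
    rw [← prob_compl_eq_zero_iff h2] at h1
    exact h1
  filter_upwards [four_often hb hi' hfair hcd, hpm] with ω h1 h2
  have h3 : wk (fun k => decide (X k ω = 1)) = fun n => ∑ k ∈ range n, X k ω := by
    funext n
    unfold wk
    apply Finset.sum_congr rfl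
    intro k _
    rcases h2 k with h | h <;> simp [h]
  rw [← h3]
  exact ⟨wk_walk _, h1⟩

end Q295.Fav
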