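import Pool.Agent.Q295.Fav.Ret

/-! The maximal local time is at most of the order `R log R`. -/

set_option autoImplicit false

namespace Q295.Fav

open MeasureTheory ProbabilityTheory Filter Topology Function Finset Classical

/-- the number of the visits to `x` before time `n` -/
noncomputable def lt (s : ℕ → ℤ) (x : ℤ) (n : ℕ) : ℕ := ((range n).filter (fun k => s k = x)).card

theorem lt_succ (s : ℕ → ℤ) (x : ℤ) (n : ℕ) : lt s x (n + 1) = lt s x n + if s n = x then 1 else 0 := by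
  unfold lt
  rw [range_add_one, filter_insert]
  split_ifs with h
  · rw [card_insert_of_notMem (by simp)]
  · rfl

theorem lt_congr {s t : ℕ → ℤ} (x : ℤ) (n : ℕ) (h : ∀ k ≤ n, s k = t k) : lt s x n = lt t x n := by
  unfold lt
  congr 1
  apply filter_congr
  intro k hk
  rw [h k (mem_range.1 hk).le]

/-- `a r = (1 - 1/(4r))⁻¹` -/
noncomputable def ar (r : ℕ) : ℝ := (1 - 1 / (4 * r))⁻¹

noncomputable def Vf (r : ℕ) (x : ℤ) (s : ℕ → ℤ) (n : ℕ) : ℝ :=
  ar r ^ lt s x n * (1 - |(s n : ℝ) - x| / (4 * r))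

/-- the frozen functional -/
noncomputable def Yf (r : ℕ) (x : ℤ) (s : ℕ → ℤ) (n : ℕ) : ℝ :=
  (1 - |(s 0 : ℝ) - x| / (4 * r)) +
    ∑ k ∈ range n, (if Rm s k ≤ r then Vf r x s (k + 1) - Vf r x s k else 0)

theorem ar_bound {r : ℕ} (hr : 1 ≤ r) : 1 ≤ ar r ∧ (ar r)⁻¹ = 1 - 1 / (4 * r) ∧ 0 < (1 : ℝ) - 1 / (4 * r) := by
  have h1 : (1 : ℝ) ≤ r := by exact_mod_cast hr
  have h2 : (1 : ℝ) / (4 * r) ≤ 1 / 4 := by
    rw [div_le_div_iff₀ (by positivity) (by norm_num)]; linarith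
  have h3 : 0 < (1 : ℝ) / (4 * r) := by positivity
  refine ⟨?_, ?_, by linarith⟩
  · unfold ar
    exact (one_le_inv₀ (by linarith)).2 (by linarith)
  · unfold ar; rw [inv_inv]

theorem Yf_inc {r : ℕ} (hr : 1 ≤ r) (x : ℤ) : Inc (Yf r x) (fun s n y => if Rm s n ≤ r then
    ar r ^ (lt s x n + if s n = x then 1 else 0) * (1 - |(y : ℝ) - x| / (4 * r)) - Vf r x s n else 0)
    where
  zero s t h := by unfold Yf; rw [h]; simp
  succ s n := by
    unfold Yf
    rw [sum_range_succ, ← add_assoc]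
    congr 1
    split_ifs <;> simp_all [Vf, lt_succ]
  congr s t n y h := by
    show (if Rm s n ≤ r then _ else _) = if Rm t n ≤ r then _ else _
    unfold Vf
    rw [Rm_congr n h, h n le_rfl, lt_congr x n h]
  bal s n _ := by
    show (if Rm s n ≤ r then _ else _) + (if Rm s n ≤ r then _ else _) = (0 : ℝ)
    by_cases hR : Rm s n ≤ r
    · rw [if_pos hR, if_pos hR]
      obtain ⟨h1, h2, h3⟩ := ar_bound hr
      have hr' : (1 : ℝ) ≤ r := by exact_mod_cast hr
      unfold Vf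
      rcases lt_trichotomy (s n) x with h | h | h
      · have h4 : (s n : ℝ) + 1 ≤ x := by exact_mod_cast (by omega : s n + 1 ≤ x)
        rw [if_neg h.ne]
        push_cast
        rw [abs_of_nonpos (by linarith : (s n : ℝ) + 1 - x ≤ 0),
          abs_of_nonpos (by linarith : (s n : ℝ) - 1 - x ≤ 0),
          abs_of_nonpos (by linarith : (s n : ℝ) - x ≤ 0)]
        ring
      · rw [if_pos h, h]
        push_cast
        rw [sub_self, abs_zero, zero_div, sub_zero, mul_one,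
          show (x : ℝ) + 1 - x = 1 by ring, show (x : ℝ) - 1 - x = -1 by ring, abs_neg, abs_one,
          pow_succ, ← h2]
        have h5 : ar r ≠ 0 := by linarith
        field_simp
        ring
      · have h4 : (x : ℝ) + 1 ≤ s n := by exact_mod_cast (by omega : x + 1 ≤ s n)
        rw [if_neg h.ne']
        push_cast
        rw [abs_of_nonneg (by linarith : 0 ≤ (s n : ℝ) + 1 - x),
          abs_of_nonneg (by linarith : 0 ≤ (s n : ℝ) - 1 - x),
          abs_of_nonneg (by linarith : 0 ≤ (s n : ℝ) - x)]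
        ring
    · rw [if_neg hR, if_neg hR, add_zero]

theorem Yf_eq {r : ℕ} {x : ℤ} {s : ℕ → ℤ} (n : ℕ) :
    (∀ k < n, Rm s k ≤ r) → Yf r x s n = Vf r x s n := by
  induction n with
  | zero => intro _; unfold Yf Vf lt; simp
  | succ n ih =>
    intro h
    have h1 := ih (fun k hk => h k (by omega))
    have h2 : Yf r x s (n + 1) = Yf r x s n + (Vf r x s (n + 1) - Vf r x s n) := by
      unfold Yf
      rw [sum_range_succ, if_pos (h n (by omega)), ← add_assoc]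
    rw [h2, h1]; ring

theorem Yf_frozen {r : ℕ} {x : ℤ} {s : ℕ → ℤ} {n : ℕ} (h : ¬ Rm s n ≤ r) :
    Yf r x s (n + 1) = Yf r x s n := by
  unfold Yf
  rw [sum_range_succ, if_neg h, add_zero]

theorem Vf_ge {r : ℕ} (hr : 1 ≤ r) {x : ℤ} (hx : x.natAbs ≤ r) {s : ℕ → ℤ} {n : ℕ}
    (h : (s n).natAbs ≤ r + 1) : ar r ^ lt s x n / 4 ≤ Vf r x s n := by
  obtain ⟨h1, h2, h3⟩ := ar_bound hr
  have hr' : (1 : ℝ) ≤ r := by exact_mod_cast hr
  have h4 : |(s n : ℝ) - x| ≤ 2 * r + 1 := by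
    have : |s n - x| ≤ 2 * r + 1 := by rw [abs_le]; omega
    exact_mod_cast this
  have h5 : |(s n : ℝ) - x| / (4 * r) ≤ 3 / 4 := by
    rw [div_le_div_iff₀ (by positivity) (by norm_num)]
    linarith
  unfold Vf
  rw [div_eq_mul_one_div]
  apply mul_le_mul_of_nonneg_left (by linarith) (by positivity)

theorem lt_mono (s : ℕ → ℤ) (x : ℤ) : Monotone (lt s x) :=
  monotone_nat_of_le_succ fun n => by rw [lt_succ]; omega

/-- once the local time is large, the functional stays large -/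
theorem Yf_large {r : ℕ} (hr : 1 ≤ r) {x : ℤ} (hx : x.natAbs ≤ r) {s : ℕ → ℤ} (hs : IsWalk s) {N : ℕ} {k n : ℕ}
    (hkn : k ≤ n) (hR : Rm s k ≤ r) (hN : N ≤ lt s x k) : ar r ^ N / 4 ≤ Yf r x s n := by
  obtain ⟨h1, h2, h3⟩ := ar_bound hr
  induction n, hkn using Nat.le_induction with
  | base =>
    rw [Yf_eq k (fun j hj => (Rm_mono s hj.le).trans hR)]
    refine le_trans ?_ (Vf_ge hr hx ((le_Rm s le_rfl).trans (hR.trans (Nat.le_succ _))))
    exact div_le_div_of_nonneg_right (pow_le_pow_right₀ h1 hN) (by norm_num)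
  | succ n hkn ih =>
    by_cases h : Rm s n ≤ r
    · rw [Yf_eq (n + 1) (fun j hj => (Rm_mono s (by omega)).trans h)]
      have h4 : (s (n + 1)).natAbs ≤ r + 1 := by
        have := le_Rm s (le_refl n)
        rcases hs.step n with h5 | h5 <;> omega
      refine le_trans ?_ (Vf_ge hr hx h4)
      exact div_le_div_of_nonneg_right (pow_le_pow_right₀ h1 (hN.trans (lt_mono s x (by omega))))
        (by norm_num)
    · rw [Yf_frozen h]; exact ih

theorem Yf_nonneg {r : ℕ} (hr : 1 ≤ r) {x : ℤ} (hx : x.natAbs ≤ r) {s : ℕ → ℤ} (hs : IsWalk s) (n : ℕ) :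
    0 ≤ Yf r x s n := by
  obtain ⟨h1, h2, h3⟩ := ar_bound hr
  have h4 : Rm s 0 ≤ r := by
    have : Rm s 0 = 0 := by show (s 0).natAbs = 0; rw [hs.zero]; rfl
    omega
  have := Yf_large hr hx hs (Nat.zero_le n) h4 (Nat.zero_le (lt s x 0))
  refine le_trans ?_ this
  positivity

variable {Ω : Type*} [mΩ : MeasurableSpace Ω] {μ : Measure Ω}

/-- the event that the local time at `x` is at least `N` before the walk leaves `[-r, r]` -/
def Ev (s : ℕ → ℤ) (r : ℕ) (x : ℤ) (N : ℕ) (n : ℕ) : Prop := ∃ k ≤ n, Rm s k ≤ r ∧ N ≤ lt s x k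

theorem Ev_prob [IsProbabilityMeasure μ] {b : ℕ → Ω → Bool} (hb : ∀ k, Measurable (b k))
    (hi : iIndepFun b μ) (hfair : ∀ n, μ {ω | b n ω = true} = 1 / 2) {r : ℕ} (hr : 1 ≤ r) {x : ℤ}
    (hx : x.natAbs ≤ r) (N n : ℕ) :
    μ {ω | Ev (wk (fun k => b k ω)) r x N n} ≤ ENNReal.ofReal (4 * ((ar r)⁻¹) ^ N) := by
  obtain ⟨h1, h2, h3⟩ := ar_bound hr
  have hmean := mean_const (Yf_inc hr x).adp (Yf_inc hr x).avg hb hi hfair n
  have hint := adp_int (μ := μ) (Yf_inc hr x).adp hb n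
  have hnn : 0 ≤ᵐ[μ] fun ω => Yf r x (wk (fun k => b k ω)) n :=
    Eventually.of_forall fun ω => Yf_nonneg hr hx (wk_walk _) n
  have hm := mul_meas_ge_le_integral_of_nonneg hnn hint (ar r ^ N / 4)
  have hle : ∫ ω, Yf r x (wk (fun k => b k ω)) n ∂μ ≤ 1 := by
    rw [hmean]
    show Yf r x (wk (fun _ => false)) 0 ≤ 1
    unfold Yf
    rw [range_zero, sum_empty, add_zero]
    have : 0 ≤ |((wk (fun _ => false) 0 : ℤ) : ℝ) - x| / (4 * r) := by positivity
    linarith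
  have hsub : {ω | Ev (wk (fun k => b k ω)) r x N n} ⊆
      {ω | ar r ^ N / 4 ≤ Yf r x (wk (fun k => b k ω)) n} := by
    rintro ω ⟨k, hk, hR, hN⟩
    exact Yf_large hr hx (wk_walk _) hk hR hN
  have hpos : 0 < ar r ^ N / 4 := by positivity
  have h4 : μ.real {ω | ar r ^ N / 4 ≤ Yf r x (wk (fun k => b k ω)) n} ≤ 4 * ((ar r)⁻¹) ^ N := by
    have h5 := hm.trans hle
    rw [mul_comm, ← le_div_iff₀ hpos] at h5
    refine h5.trans (le_of_eq ?_)
    rw [inv_pow]
    field_simp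
  calc μ {ω | Ev (wk (fun k => b k ω)) r x N n}
      ≤ μ {ω | ar r ^ N / 4 ≤ Yf r x (wk (fun k => b k ω)) n} := measure_mono hsub
    _ = ENNReal.ofReal (μ.real {ω | ar r ^ N / 4 ≤ Yf r x (wk (fun k => b k ω)) n}) := by
        rw [ofReal_measureReal]
    _ ≤ _ := ENNReal.ofReal_le_ofReal h4

theorem Ev_all [IsProbabilityMeasure μ] {b : ℕ → Ω → Bool} (hb : ∀ k, Measurable (b k))
    (hi : iIndepFun b μ) (hfair : ∀ n, μ {ω | b n ω = true} = 1 / 2) {r : ℕ} (hr : 1 ≤ r) {x : ℤ}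
    (hx : x.natAbs ≤ r) (N : ℕ) :
    μ {ω | ∃ n, Ev (wk (fun k => b k ω)) r x N n} ≤ ENNReal.ofReal (4 * ((ar r)⁻¹) ^ N) := by
  have h1 : {ω | ∃ n, Ev (wk (fun k => b k ω)) r x N n} =
      ⋃ n, {ω | Ev (wk (fun k => b k ω)) r x N n} := by
    ext ω; simp
  have h2 : Monotone (fun n => {ω | Ev (wk (fun k => b k ω)) r x N n}) := by
    intro n m hnm ω hω
    obtain ⟨k, hk, h⟩ := hω
    exact ⟨k, hk.trans hnm, h⟩
  rw [h1, h2.measure_iUnion]
  exact iSup_le (fun n => Ev_prob hb hi hfair hr hx N n)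

/-- the threshold -/
noncomputable def Nr (r : ℕ) : ℕ := ⌈16 * (r : ℝ) * Real.log (r + 2)⌉₊

theorem pow_le_of (r : ℕ) (hr : 1 ≤ r) : ((ar r)⁻¹) ^ (Nr r) ≤ ((r : ℝ) + 2)⁻¹ ^ 4 := by
  obtain ⟨h1, h2, h3⟩ := ar_bound hr
  have hr' : (1 : ℝ) ≤ r := by exact_mod_cast hr
  have hlog := logpos r
  rw [h2]
  have h4 : (1 : ℝ) - 1 / (4 * r) ≤ Real.exp (-(1 / (4 * r))) := by
    have := Real.add_one_le_exp (-(1 / (4 * (r : ℝ))))
    linarith
  calc (1 - 1 / (4 * (r : ℝ))) ^ (Nr r) ≤ Real.exp (-(1 / (4 * r))) ^ (Nr r) :=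
        pow_le_pow_left₀ h3.le h4 _
    _ = Real.exp (-((Nr r : ℝ) / (4 * r))) := by
        rw [← Real.exp_nat_mul]; congr 1; ring
    _ ≤ Real.exp (-(4 * Real.log (r + 2))) := by
        apply Real.exp_le_exp.2
        apply neg_le_neg
        rw [le_div_iff₀ (by positivity)]
        refine le_trans (le_of_eq ?_) (Nat.le_ceil _)
        ring
    _ = ((r : ℝ) + 2)⁻¹ ^ 4 := by
        rw [Real.exp_neg, show (4 : ℝ) * Real.log (r + 2) = ((4 : ℕ) : ℝ) * Real.log (r + 2) by norm_num,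
          Real.exp_nat_mul, Real.exp_log (by positivity), inv_pow]

/-- the event that some local time is large -/
def Bad (s : ℕ → ℤ) (r : ℕ) : Prop := ∃ x : ℤ, x.natAbs ≤ r ∧ ∃ n, Ev s r x (Nr r) n

theorem Bad_prob [IsProbabilityMeasure μ] {b : ℕ → Ω → Bool} (hb : ∀ k, Measurable (b k))
    (hi : iIndepFun b μ) (hfair : ∀ n, μ {ω | b n ω = true} = 1 / 2) {r : ℕ} (hr : 1 ≤ r) :
    μ {ω | Bad (wk (fun k => b k ω)) r} ≤ ENNReal.ofReal (12 * (1 / ((r : ℝ) + 1) ^ 2)) := by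
  have hr' : (1 : ℝ) ≤ r := by exact_mod_cast hr
  have h1 : {ω | Bad (wk (fun k => b k ω)) r} ⊆
      ⋃ x ∈ (Finset.Icc (-(r : ℤ)) r), {ω | ∃ n, Ev (wk (fun k => b k ω)) r x (Nr r) n} := by
    rintro ω ⟨x, hx, h⟩
    rw [Set.mem_iUnion₂]
    exact ⟨x, by rw [Finset.mem_Icc]; omega, h⟩
  calc μ {ω | Bad (wk (fun k => b k ω)) r}
      ≤ μ (⋃ x ∈ (Finset.Icc (-(r : ℤ)) r), {ω | ∃ n, Ev (wk (fun k => b k ω)) r x (Nr r) n}) :=
        measure_mono h1
    _ ≤ ∑ x ∈ Finset.Icc (-(r : ℤ)) r, μ {ω | ∃ n, Ev (wk (fun k => b k ω)) r x (Nr r) n} :=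
        measure_biUnion_finset_le _ _
    _ ≤ ∑ _x ∈ Finset.Icc (-(r : ℤ)) r, ENNReal.ofReal (4 * ((r : ℝ) + 2)⁻¹ ^ 4) := by
        apply Finset.sum_le_sum
        intro x hx
        rw [Finset.mem_Icc] at hx
        refine (Ev_all hb hi hfair hr (by omega) (Nr r)).trans ?_
        apply ENNReal.ofReal_le_ofReal
        exact mul_le_mul_of_nonneg_left (pow_le_of r hr) (by norm_num)
    _ = ENNReal.ofReal ((2 * r + 1) * (4 * ((r : ℝ) + 2)⁻¹ ^ 4)) := by
        rw [Finset.sum_const, Int.card_Icc, nsmul_eq_mul,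
          show ((r : ℤ) + 1 - -(r : ℤ)).toNat = 2 * r + 1 by omega,
          show (2 * (r : ℝ) + 1) = ((2 * r + 1 : ℕ) : ℝ) by push_cast; ring,
          ENNReal.ofReal_mul (p := ((2 * r + 1 : ℕ) : ℝ)) (by positivity), ENNReal.ofReal_natCast]
    _ ≤ ENNReal.ofReal (12 * (1 / ((r : ℝ) + 1) ^ 2)) := by
        apply ENNReal.ofReal_le_ofReal
        rw [inv_pow, ← div_eq_mul_inv, mul_div_assoc', mul_one_div, div_le_div_iff₀ (by positivity)
          (by positivity)]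
        have h2 : ((r : ℝ) + 1) ^ 2 ≤ ((r : ℝ) + 2) ^ 2 := by nlinarith
        have h3 : (2 * (r : ℝ) + 1) * 4 ≤ 12 * ((r : ℝ) + 2) ^ 2 := by nlinarith
        calc (2 * (r : ℝ) + 1) * 4 * ((r : ℝ) + 1) ^ 2
            ≤ (12 * ((r : ℝ) + 2) ^ 2) * ((r : ℝ) + 2) ^ 2 :=
              mul_le_mul h3 h2 (by positivity) (by positivity)
          _ = 12 * ((r : ℝ) + 2) ^ 4 := by ring

theorem eventually_not_bad [IsProbabilityMeasure μ] {b : ℕ → Ω → Bool} (hb : ∀ k, Measurable (b k))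
    (hi : iIndepFun b μ) (hfair : ∀ n, μ {ω | b n ω = true} = 1 / 2) :
    ∀ᵐ ω ∂μ, ∀ᶠ r in atTop, ¬ Bad (wk (fun k => b k ω)) (r + 1) := by
  have h1 : ∑' r, μ {ω | Bad (wk (fun k => b k ω)) (r + 1)} ≠ ⊤ := by
    have h2 : Summable (fun r : ℕ => 12 * (1 / (((r + 1 : ℕ) : ℝ) + 1) ^ 2)) := by
      apply Summable.mul_left
      have h3 := (summable_nat_add_iff 2).2 (Real.summable_one_div_nat_pow.2 (by norm_num : 1 < 2))
      refine h3.congr (fun n => ?_)
      push_cast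
      ring_nf
    have h4 : ∑' r : ℕ, ENNReal.ofReal (12 * (1 / (((r + 1 : ℕ) : ℝ) + 1) ^ 2)) ≠ ⊤ := by
      rw [← ENNReal.ofReal_tsum_of_nonneg (fun n => by positivity) h2]
      exact ENNReal.ofReal_ne_top
    exact ne_top_of_le_ne_top h4 (ENNReal.tsum_le_tsum (fun r => Bad_prob hb hi hfair (by omega)))
  have h2 := ae_eventually_notMem h1
  filter_upwards [h2] with ω h
  exact h

theorem Mx_le_of_not_bad {s : ℕ → ℤ} {n : ℕ} (h : ¬ Bad s (Rm s n)) :
    Mx s n ≤ Nr (Rm s n) := by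
  by_contra hc
  push Not at hc
  apply h
  have hlt : ∀ x, Mx s n ≤ lt s x n → x.natAbs ≤ Rm s n ∧ ∃ n', Ev s (Rm s n) x (Nr (Rm s n)) n' := by
    intro x hx
    have h1 : 0 < lt s x n := by omega
    unfold lt at h1
    obtain ⟨k, hk⟩ := card_pos.1 h1
    rw [mem_filter, mem_range] at hk
    refine ⟨?_, n, n, le_rfl, le_rfl, by omega⟩
    rw [← hk.2]
    exact le_Rm s hk.1.le
  have hup : ∀ x, up s x n ≤ lt s x n := by
    intro x
    unfold up lt
    apply card_le_card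
    intro k hk
    rw [mem_filter] at hk ⊢
    exact ⟨hk.1, hk.2.1⟩
  have hdn : ∀ x, dn s x n ≤ lt s (x + 1) n := by
    intro x
    unfold dn lt
    apply card_le_card
    intro k hk
    rw [mem_filter] at hk ⊢
    exact ⟨hk.1, hk.2.1⟩
  obtain ⟨x, hx | hx⟩ := attained s n
  · obtain ⟨h1, h2⟩ := hlt x (by rw [← hx]; exact hup x)
    exact ⟨x, h1, h2⟩
  · obtain ⟨h1, h2⟩ := hlt (x + 1) (by rw [← hx]; exact hdn x)
    exact ⟨x + 1, h1, h2⟩

theorem wt_ge {s : ℕ → ℤ} {n : ℕ} (h : Mx s n ≤ Nr (Rm s n)) : fw (Rm s n) / 16 ≤ wt s n := by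
  have hlog := logpos (Rm s n)
  have h0 : (0 : ℝ) ≤ Rm s n := Nat.cast_nonneg _
  unfold fw wt
  rw [div_div, div_le_div_iff₀ (by positivity) (by positivity), one_mul, one_mul]
  have h1 : (Mx s n : ℝ) ≤ Nr (Rm s n) := by exact_mod_cast h
  have h2 : (Nr (Rm s n) : ℝ) < 16 * (Rm s n : ℝ) * Real.log (Rm s n + 2) + 1 :=
    Nat.ceil_lt_add_one (by positivity)
  nlinarith

/-- the returns, weighted with the inverse of the maximal count, have infinite weight -/
theorem returns_wt [IsProbabilityMeasure μ] {b : ℕ → Ω → Bool} (hb : ∀ k, Measurable (b k))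
    (hi : iIndepFun b μ) (hfair : ∀ n, μ {ω | b n ω = true} = 1 / 2) :
    ∀ᵐ ω ∂μ, ∀ B : ℝ, ∃ n, B < ∑ k ∈ range n, (if wk (fun j => b j ω) k = 0 then
      wt (wk (fun j => b j ω)) k else 0) := by
  filter_upwards [returns hb hi hfair, Rm_top hb hi hfair, eventually_not_bad hb hi hfair]
    with ω h1 h2 h3 B
  set s := wk (fun j => b j ω) with hs
  have h4 : ∀ᶠ n in atTop, ¬ Bad s (Rm s n) := by
    have h5 : ∀ᶠ r in atTop, ¬ Bad s r := by
      obtain ⟨r₀, hr₀⟩ := h3.exists_forall_of_atTop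
      filter_upwards [eventually_ge_atTop (r₀ + 1)] with r hr
      have := hr₀ (r - 1) (by omega)
      rwa [Nat.sub_add_cancel (by omega)] at this
    exact h2.eventually h5
  obtain ⟨T, hT⟩ := h4.exists_forall_of_atTop
  obtain ⟨n, hn⟩ := h1 (16 * B + T)
  refine ⟨n, ?_⟩
  have h6 : ∀ m, ∑ k ∈ range m, (if s k = 0 then fw (Rm s k) else 0) ≤
      16 * ∑ k ∈ range m, (if s k = 0 then wt s k else 0) + (min m T : ℕ) := by
    intro m
    induction m with
    | zero => simp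
    | succ m ih =>
      rw [sum_range_succ, sum_range_succ]
      by_cases hm : T ≤ m
      · have h7 := wt_ge (Mx_le_of_not_bad (hT m hm))
        rw [min_eq_right (by omega)] at ih ⊢
        split_ifs <;> linarith
      · rw [min_eq_left (by omega)] at ih ⊢
        push_cast
        have h7 := fw_le (Rm s m)
        have h8 := wt_pos s m
        split_ifs <;> linarith
  have h7 := h6 n
  have h8 : ((min n T : ℕ) : ℝ) ≤ T := by exact_mod_cast min_le_right _ _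
  linarith

end Q295.Fav
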