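import Mathlib

/-! Functionals of a sequence of fair bits which are martingales. -/

set_option autoImplicit false

namespace Q295.Fav

open MeasureTheory ProbabilityTheory Filter Topology Function

/-- a functional which at time `n` depends on the first `n` bits only -/
def Adp (F : (ℕ → Bool) → ℕ → ℝ) : Prop := ∀ u v n, (∀ k < n, u k = v k) → F u n = F v n

/-- the average over the next bit does not change the functional -/
def Avg (F : (ℕ → Bool) → ℕ → ℝ) : Prop :=
  ∀ u n, F (update u n true) (n + 1) + F (update u n false) (n + 1) = 2 * F u n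

variable {Ω : Type*} [mΩ : MeasurableSpace Ω] {μ : Measure Ω}

def fil (b : ℕ → Ω → Bool) (hb : ∀ k, Measurable (b k)) : Filtration ℕ mΩ where
  seq n := MeasurableSpace.comap (fun ω (i : Fin n) => b i ω) MeasurableSpace.pi
  mono' := by
    intro n m hnm
    have h1 : (fun ω (i : Fin n) => b i ω) =
        (fun (p : Fin m → Bool) (i : Fin n) => p ⟨i, by omega⟩) ∘ (fun ω (i : Fin m) => b i ω) := rfl
    show MeasurableSpace.comap _ _ ≤ MeasurableSpace.comap _ _
    rw [h1, ← MeasurableSpace.comap_comp]
    apply MeasurableSpace.comap_mono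
    apply Measurable.comap_le
    exact measurable_pi_lambda _ (fun i => measurable_pi_apply _)
  le' n := Measurable.comap_le (measurable_pi_lambda _ (fun i => hb i))

/-- extend by `false` -/
def ext (n : ℕ) (p : Fin n → Bool) : ℕ → Bool := fun k => if h : k < n then p ⟨k, h⟩ else false

theorem adp_ext {F : (ℕ → Bool) → ℕ → ℝ} (hF : Adp F) (u : ℕ → Bool) (n : ℕ) :
    F u n = F (ext n (fun i => u i)) n := by
  apply hF
  intro k hk
  simp [ext, hk]

theorem adp_meas {F : (ℕ → Bool) → ℕ → ℝ} (hF : Adp F) {b : ℕ → Ω → Bool}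
    (hb : ∀ k, Measurable (b k)) (n : ℕ) :
    Measurable[fil b hb n] (fun ω => F (fun k => b k ω) n) := by
  have h1 : (fun ω => F (fun k => b k ω) n) =
      (fun p : Fin n → Bool => F (ext n p) n) ∘ (fun ω (i : Fin n) => b i ω) := by
    funext ω
    exact adp_ext hF _ _
  rw [h1]
  have h2 : Measurable (fun p : Fin n → Bool => F (ext n p) n) := measurable_of_countable _
  exact h2.comp (comap_measurable _)

theorem adp_bdd {F : (ℕ → Bool) → ℕ → ℝ} (hF : Adp F) (n : ℕ) : ∃ C, ∀ u, |F u n| ≤ C := by
  obtain ⟨C, hC⟩ := (Set.finite_range (fun p : Fin n → Bool => |F (ext n p) n|)).bddAbove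
  refine ⟨C, fun u => ?_⟩
  rw [adp_ext hF]
  exact hC ⟨_, rfl⟩

theorem adp_int [IsProbabilityMeasure μ] {F : (ℕ → Bool) → ℕ → ℝ} (hF : Adp F) {b : ℕ → Ω → Bool}
    (hb : ∀ k, Measurable (b k)) (n : ℕ) : Integrable (fun ω => F (fun k => b k ω) n) μ := by
  obtain ⟨C, hC⟩ := adp_bdd hF n
  apply Integrable.of_bound (C := C)
  · exact ((adp_meas hF hb n).mono ((fil b hb).le n) le_rfl).aestronglyMeasurable
  · exact Eventually.of_forall (fun ω => by rw [Real.norm_eq_abs]; exact hC _)

theorem eps_mean [IsProbabilityMeasure μ] {b : ℕ → Ω → Bool} (hb : ∀ k, Measurable (b k)) (n : ℕ)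
    (hfair : μ {ω | b n ω = true} = 1 / 2) : ∫ ω, (if b n ω = true then (1 : ℝ) else -1) ∂μ = 0 := by
  have hm : MeasurableSet {ω | b n ω = true} := hb n (measurableSet_singleton true)
  have h1 : (fun ω => (if b n ω = true then (1 : ℝ) else -1)) =
      fun ω => 2 * Set.indicator {ω | b n ω = true} (fun _ => (1 : ℝ)) ω - 1 := by
    funext ω
    by_cases h : b n ω = true
    · simp [h]; norm_num
    · simp [h]
  rw [h1, integral_sub, integral_const_mul, integral_indicator hm]
  · simp only [integral_const, MeasurableSet.univ, measureReal_restrict_apply, Set.univ_inter,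
      smul_eq_mul, mul_one]
    simp [Measure.real, hfair]
  · exact ((integrable_const (1 : ℝ)).indicator hm).const_mul 2
  · exact integrable_const _

theorem indep_next [IsProbabilityMeasure μ] {b : ℕ → Ω → Bool} (hb : ∀ k, Measurable (b k))
    (hi : iIndepFun b μ) (n : ℕ) :
    Indep (MeasurableSpace.comap (b n) inferInstance) (fil b hb n) μ := by
  have h1 := hi.indepFun_finset {n} (Finset.range n) (by simp) hb
  have hφ : Measurable (fun p : (↥({n} : Finset ℕ) → Bool) => p ⟨n, Finset.mem_singleton_self n⟩) :=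
    measurable_pi_apply _
  have hψ : Measurable (fun p : (↥(Finset.range n) → Bool) =>
      (fun i : Fin n => p ⟨i, Finset.mem_range.2 i.2⟩)) :=
    measurable_pi_lambda _ (fun i => measurable_pi_apply _)
  have h2 := h1.comp hφ hψ
  exact h2

theorem mart [IsProbabilityMeasure μ] {F : (ℕ → Bool) → ℕ → ℝ} (hF : Adp F) (hA : Avg F)
    {b : ℕ → Ω → Bool} (hb : ∀ k, Measurable (b k)) (hi : iIndepFun b μ)
    (hfair : ∀ n, μ {ω | b n ω = true} = 1 / 2) :
    Martingale (fun n ω => F (fun k => b k ω) n) (fil b hb) μ := by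
  apply martingale_nat
  · exact fun n => (adp_meas hF hb n).stronglyMeasurable
  · exact fun n => adp_int hF hb n
  · intro n
    -- the increment
    let D : (ℕ → Bool) → ℕ → ℝ := fun u m =>
      (F (update u m true) (m + 1) - F (update u m false) (m + 1)) / 2
    have hD : Adp D := by
      intro u v m huv
      have h1 : ∀ c, F (update u m c) (m + 1) = F (update v m c) (m + 1) := by
        intro c
        apply hF
        intro k hk
        by_cases hkm : k = m
        · subst hkm; simp
        · rw [update_of_ne hkm, update_of_ne hkm]; exact huv k (by omega)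
      show (_ - _) / 2 = (_ - _) / 2
      rw [h1, h1]
    have hstep : ∀ u : ℕ → Bool, F u (n + 1) = F u n + D u n * (if u n = true then (1 : ℝ) else -1) := by
      intro u
      have h1 : u = update u n (u n) := by simp
      have h2 := hA u n
      rcases hu : u n with _ | _
      · rw [hu] at h1
        have h3 : F u (n + 1) = F (update u n false) (n + 1) := by rw [← h1]
        rw [h3]
        simp only [Bool.false_eq_true, if_false]
        show _ = _ + (_ - _) / 2 * _
        linarith
      · rw [hu] at h1
        have h3 : F u (n + 1) = F (update u n true) (n + 1) := by rw [← h1]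
        rw [h3]
        simp only [if_true]
        show _ = _ + (_ - _) / 2 * _
        linarith
    have hfun : (fun ω => F (fun k => b k ω) (n + 1)) = (fun ω => F (fun k => b k ω) n) +
        (fun ω => D (fun k => b k ω) n) * (fun ω => if b n ω = true then (1 : ℝ) else -1) := by
      funext ω
      exact hstep _
    have hepsm : Measurable (fun ω => if b n ω = true then (1 : ℝ) else -1) :=
      Measurable.ite (hb n (measurableSet_singleton true)) measurable_const measurable_const
    have hepsi : Integrable (fun ω => if b n ω = true then (1 : ℝ) else -1) μ := by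
      apply Integrable.of_bound (C := 1) hepsm.aestronglyMeasurable
      exact Eventually.of_forall (fun ω => by split_ifs <;> simp)
    have hDi : Integrable ((fun ω => D (fun k => b k ω) n) *
        (fun ω => if b n ω = true then (1 : ℝ) else -1)) μ := by
      obtain ⟨C, hC⟩ := adp_bdd hD n
      apply Integrable.of_bound (C := C)
      · exact (((adp_meas hD hb n).mono ((fil b hb).le n) le_rfl).mul hepsm).aestronglyMeasurable
      · refine Eventually.of_forall (fun ω => ?_)
        rw [Pi.mul_apply, norm_mul, Real.norm_eq_abs, Real.norm_eq_abs]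
        have h1 : |if b n ω = true then (1 : ℝ) else -1| = 1 := by split_ifs <;> simp
        rw [h1, mul_one]
        exact hC _
    rw [hfun]
    have h1 := condExp_add (m := fil b hb n) (adp_int hF hb n (μ := μ)) hDi
    have h2 : μ[(fun ω => F (fun k => b k ω) n)|fil b hb n] = (fun ω => F (fun k => b k ω) n) :=
      condExp_of_stronglyMeasurable ((fil b hb).le n) (adp_meas hF hb n).stronglyMeasurable
        (adp_int hF hb n)
    have h3 := condExp_mul_of_stronglyMeasurable_left (m := fil b hb n) (μ := μ)
      (adp_meas hD hb n).stronglyMeasurable hDi hepsi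
    have h4 := condExp_indep_eq (m₁ := MeasurableSpace.comap (b n) inferInstance)
      (f := fun ω => if b n ω = true then (1 : ℝ) else -1) (hb n).comap_le ((fil b hb).le n)
      (Measurable.stronglyMeasurable (by
        have : (fun ω => if b n ω = true then (1 : ℝ) else -1) =
          (fun c : Bool => if c = true then (1 : ℝ) else -1) ∘ (b n) := rfl
        rw [this]
        exact (measurable_of_countable _).comp (comap_measurable _))) (indep_next hb hi n)
    rw [eps_mean hb n (hfair n)] at h4
    filter_upwards [h1, h3, h4] with ω g1 g3 g4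
    rw [g1, Pi.add_apply, h2, g3, Pi.mul_apply, g4, mul_zero, add_zero]

theorem bdd_iff [IsProbabilityMeasure μ] {F : (ℕ → Bool) → ℕ → ℝ} (hF : Adp F) (hA : Avg F)
    {R : ℝ} (hR : ∀ u n, |F u (n + 1) - F u n| ≤ R)
    {b : ℕ → Ω → Bool} (hb : ∀ k, Measurable (b k)) (hi : iIndepFun b μ)
    (hfair : ∀ n, μ {ω | b n ω = true} = 1 / 2) :
    ∀ᵐ ω ∂μ, BddAbove (Set.range fun n => F (fun k => b k ω) n) ↔
      ∃ c, Tendsto (fun n => F (fun k => b k ω) n) atTop (𝓝 c) := by
  have hR0 : 0 ≤ R := le_trans (abs_nonneg _) (hR (fun _ => true) 0)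
  exact (mart hF hA hb hi hfair).submartingale.bddAbove_iff_exists_tendsto (R := ⟨R, hR0⟩)
    (Eventually.of_forall fun ω n => hR _ n)

/-- such a martingale does not tend to `-∞` -/
theorem not_bot [IsProbabilityMeasure μ] {F : (ℕ → Bool) → ℕ → ℝ} (hF : Adp F) (hA : Avg F)
    {R : ℝ} (hR : ∀ u n, |F u (n + 1) - F u n| ≤ R)
    {b : ℕ → Ω → Bool} (hb : ∀ k, Measurable (b k)) (hi : iIndepFun b μ)
    (hfair : ∀ n, μ {ω | b n ω = true} = 1 / 2) :
    ∀ᵐ ω ∂μ, ¬ Tendsto (fun n => F (fun k => b k ω) n) atTop atBot := by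
  filter_upwards [bdd_iff hF hA hR hb hi hfair] with ω h hbot
  have hb : BddAbove (Set.range fun n => F (fun k => b k ω) n) := by
    obtain ⟨N, hN⟩ := (hbot.eventually (eventually_le_atBot 0)).exists_forall_of_atTop
    obtain ⟨C, hC⟩ := ((Set.finite_Iio N).image (fun n => F (fun k => b k ω) n)).bddAbove
    refine ⟨max C 0, ?_⟩
    rintro _ ⟨n, rfl⟩
    rcases lt_or_ge n N with hn | hn
    · exact (hC ⟨n, hn, rfl⟩).trans (le_max_left _ _)
    · exact (hN n hn).trans (le_max_right _ _)
  obtain ⟨c, hc⟩ := h.1 hb
  exact not_tendsto_atBot_of_tendsto_nhds hc hbot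

theorem mean_const [IsProbabilityMeasure μ] {F : (ℕ → Bool) → ℕ → ℝ} (hF : Adp F) (hA : Avg F)
    {b : ℕ → Ω → Bool} (hb : ∀ k, Measurable (b k)) (hi : iIndepFun b μ)
    (hfair : ∀ n, μ {ω | b n ω = true} = 1 / 2) (n : ℕ) :
    ∫ ω, F (fun k => b k ω) n ∂μ = F (fun _ => false) 0 := by
  have h1 := (mart hF hA hb hi hfair).setIntegral_eq (i := 0) (j := n) (Nat.zero_le n)
    (s := Set.univ) MeasurableSet.univ
  rw [setIntegral_univ, setIntegral_univ] at h1
  rw [← h1]
  have : (fun ω => F (fun k => b k ω) 0) = fun _ => F (fun _ => false) 0 := by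
    funext ω
    exact hF _ _ 0 (by intro k hk; omega)
  rw [this]
  simp

end Q295.Fav
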