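import Mathlib

/-! Nearest neighbour paths on `ℤ`: edge counts, their maximum, and the sites whose one-sided count is
maximal. -/

set_option autoImplicit false

namespace Q295.Fav

open Finset Classical

/-- number of the steps from `x` to `x + 1` among the first `n` -/
noncomputable def up (s : ℕ → ℤ) (x : ℤ) (n : ℕ) : ℕ :=
  ((range n).filter (fun k => s k = x ∧ s (k + 1) = x + 1)).card

/-- number of the steps from `x + 1` to `x` among the first `n` -/
noncomputable def dn (s : ℕ → ℤ) (x : ℤ) (n : ℕ) : ℕ :=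
  ((range n).filter (fun k => s k = x + 1 ∧ s (k + 1) = x)).card

structure IsWalk (s : ℕ → ℤ) : Prop where
  zero : s 0 = 0
  step : ∀ k, s (k + 1) = s k + 1 ∨ s (k + 1) = s k - 1

theorem up_succ (s : ℕ → ℤ) (x : ℤ) (n : ℕ) :
    up s x (n + 1) = up s x n + if s n = x ∧ s (n + 1) = x + 1 then 1 else 0 := by
  unfold up
  rw [range_add_one, filter_insert]
  split_ifs with h
  · rw [card_insert_of_notMem (by simp)]
  · rfl

theorem dn_succ (s : ℕ → ℤ) (x : ℤ) (n : ℕ) :
    dn s x (n + 1) = dn s x n + if s n = x + 1 ∧ s (n + 1) = x then 1 else 0 := by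
  unfold dn
  rw [range_add_one, filter_insert]
  split_ifs with h
  · rw [card_insert_of_notMem (by simp)]
  · rfl

@[simp] theorem up_zero (s : ℕ → ℤ) (x : ℤ) : up s x 0 = 0 := by simp [up]
@[simp] theorem dn_zero (s : ℕ → ℤ) (x : ℤ) : dn s x 0 = 0 := by simp [dn]

/-- the largest count -/
noncomputable def Mx (s : ℕ → ℤ) : ℕ → ℕ
  | 0 => 0
  | n + 1 => max (Mx s n) (if s (n + 1) = s n + 1 then up s (s n) (n + 1) else dn s (s (n + 1)) (n + 1))

theorem Mx_mono (s : ℕ → ℤ) : Monotone (Mx s) :=
  monotone_nat_of_le_succ fun n => by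
    show Mx s n ≤ max _ _
    exact le_max_left _ _

theorem up_mono (s : ℕ → ℤ) (x : ℤ) : Monotone (up s x) :=
  monotone_nat_of_le_succ fun n => by rw [up_succ]; omega

theorem dn_mono (s : ℕ → ℤ) (x : ℤ) : Monotone (dn s x) :=
  monotone_nat_of_le_succ fun n => by rw [dn_succ]; omega

theorem up_dn_le (s : ℕ → ℤ) (n : ℕ) : ∀ x, up s x n ≤ Mx s n ∧ dn s x n ≤ Mx s n := by
  induction n with
  | zero => intro x; simp
  | succ n ih =>
    intro x
    have h1 := ih x
    have hm : Mx s (n + 1) =
      max (Mx s n) (if s (n + 1) = s n + 1 then up s (s n) (n + 1) else dn s (s (n + 1)) (n + 1)) := rfl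
    constructor
    · by_cases hx : s n = x ∧ s (n + 1) = x + 1
      · rw [hm]
        have : s (n + 1) = s n + 1 := by rw [hx.2, hx.1]
        rw [if_pos this, hx.1]
        exact le_max_right _ _
      · rw [up_succ, if_neg hx, add_zero]
        exact h1.1.trans (Mx_mono s (Nat.le_succ n))
    · by_cases hx : s n = x + 1 ∧ s (n + 1) = x
      · rw [hm]
        have : ¬ s (n + 1) = s n + 1 := by rw [hx.2, hx.1]; omega
        rw [if_neg this, hx.2]
        exact le_max_right _ _
      · rw [dn_succ, if_neg hx, add_zero]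
        exact h1.2.trans (Mx_mono s (Nat.le_succ n))

theorem attained (s : ℕ → ℤ) (n : ℕ) : ∃ x, up s x n = Mx s n ∨ dn s x n = Mx s n := by
  induction n with
  | zero => exact ⟨0, Or.inl (by simp [Mx])⟩
  | succ n ih =>
    have hm : Mx s (n + 1) =
      max (Mx s n) (if s (n + 1) = s n + 1 then up s (s n) (n + 1) else dn s (s (n + 1)) (n + 1)) := rfl
    have hle := up_dn_le s (n + 1)
    rcases le_total (Mx s n) (if s (n + 1) = s n + 1 then up s (s n) (n + 1) else dn s (s (n + 1)) (n + 1))
      with h | h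
    · rw [hm, max_eq_right h]
      split_ifs
      · exact ⟨_, Or.inl rfl⟩
      · exact ⟨_, Or.inr rfl⟩
    · rw [hm, max_eq_left h] at hle
      rw [hm, max_eq_left h]
      obtain ⟨x, hx⟩ := ih
      refine ⟨x, ?_⟩
      rcases hx with hx | hx
      · left
        have h1 := (hle x).1
        have h2 : up s x n ≤ up s x (n + 1) := up_mono s x (Nat.le_succ n)
        omega
      · right
        have h1 := (hle x).2
        have h2 : dn s x n ≤ dn s x (n + 1) := dn_mono s x (Nat.le_succ n)
        omega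

/-- the difference of the counts of an edge -/
theorem up_sub_dn {s : ℕ → ℤ} (h : IsWalk s) (x : ℤ) (n : ℕ) :
    (up s x n : ℤ) - dn s x n = (if x < s n then 1 else 0) - (if x < 0 then 1 else 0) := by
  induction n with
  | zero => rw [h.zero]; simp
  | succ n ih =>
    rw [up_succ, dn_succ]
    push_cast
    have h1 := h.step n
    rcases h1 with h1 | h1
    · rw [h1]
      split_ifs at ih ⊢ <;> omega
    · rw [h1]
      split_ifs at ih ⊢ <;> omega

/-- one step changes the maximum by at most one -/
theorem Mx_succ_le (s : ℕ → ℤ) (n : ℕ) : Mx s (n + 1) ≤ Mx s n + 1 := by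
  show max _ _ ≤ _
  apply max_le (Nat.le_succ _)
  split_ifs
  · rw [up_succ]
    have := (up_dn_le s n (s n)).1
    split_ifs <;> omega
  · rw [dn_succ]
    have := (up_dn_le s n (s (n + 1))).2
    split_ifs <;> omega

theorem Mx_le (s : ℕ → ℤ) (n : ℕ) : Mx s n ≤ n := by
  induction n with
  | zero => exact le_refl _
  | succ n ih => have := Mx_succ_le s n; omega

/-- when the maximum grows, the last step is an upward step over an edge with a maximal count, or a
downward one -/
theorem Mx_grow {s : ℕ → ℤ} (h : IsWalk s) {n : ℕ} (hg : Mx s n < Mx s (n + 1)) :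
    (s (n + 1) = s n + 1 ∧ up s (s n) n = Mx s n) ∨
    (s (n + 1) = s n - 1 ∧ dn s (s n - 1) n = Mx s n) := by
  have hm : Mx s (n + 1) =
      max (Mx s n) (if s (n + 1) = s n + 1 then up s (s n) (n + 1) else dn s (s (n + 1)) (n + 1)) := rfl
  rw [hm, lt_max_iff] at hg
  have hg' := hg.resolve_left (lt_irrefl _)
  rcases h.step n with h1 | h1
  · left
    rw [if_pos h1, up_succ, if_pos ⟨rfl, h1⟩] at hg'
    have := (up_dn_le s n (s n)).1
    exact ⟨h1, by omega⟩
  · right
    have h2 : ¬ s (n + 1) = s n + 1 := by omega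
    rw [if_neg h2, dn_succ, h1, if_pos ⟨by ring, rfl⟩] at hg'
    have := (up_dn_le s n (s n - 1)).2
    exact ⟨h1, by omega⟩

/-! ### favourite one-sided sites -/

/-- the larger one of the two one-sided counts at `x`; `a, b` fix the convention -/
noncomputable def Xi (a b : ℤ) (s : ℕ → ℤ) (x : ℤ) (n : ℕ) : ℕ := max (up s (x - a) n) (dn s (x - b) n)

/-- the favourite one-sided sites -/
def Ks (a b : ℤ) (s : ℕ → ℤ) (n : ℕ) : Set ℤ := {x | ∀ y, Xi a b s y n ≤ Xi a b s x n}

theorem mem_Ks (a b : ℤ) (s : ℕ → ℤ) (n : ℕ) (x : ℤ) : x ∈ Ks a b s n ↔ Xi a b s x n = Mx s n := by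
  have hle : ∀ y, Xi a b s y n ≤ Mx s n := fun y =>
    max_le (up_dn_le s n _).1 (up_dn_le s n _).2
  constructor
  · intro h
    apply le_antisymm (hle x)
    obtain ⟨e, he | he⟩ := attained s n
    · refine le_trans ?_ (h (e + a))
      unfold Xi
      rw [add_sub_cancel_right, ← he]
      exact le_max_left _ _
    · refine le_trans ?_ (h (e + b))
      unfold Xi
      rw [add_sub_cancel_right e b, ← he]
      exact le_max_right _ _
  · intro h y
    rw [h]
    exact hle y

theorem walk_abs {s : ℕ → ℤ} (h : IsWalk s) (n : ℕ) : |s n| ≤ n := by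
  induction n with
  | zero => rw [h.zero]; simp
  | succ n ih =>
    have h1 := h.step n
    rw [abs_le] at ih ⊢
    push_cast
    omega

theorem Ks_finite {a b : ℤ} {s : ℕ → ℤ} (h : IsWalk s) {n : ℕ} (hM : 1 ≤ Mx s n) :
    (Ks a b s n).Finite := by
  apply (Set.finite_Icc (-(n : ℤ) - |a| - |b| - 1) (n + |a| + |b| + 1)).subset
  intro x hx
  rw [mem_Ks] at hx
  unfold Xi at hx
  have h1 := le_abs_self a
  have h2 := neg_abs_le a
  have h3 := le_abs_self b
  have h4 := neg_abs_le b
  have h5 := abs_nonneg a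
  have h6 := abs_nonneg b
  rw [Set.mem_Icc]
  rcases max_choice (up s (x - a) n) (dn s (x - b) n) with hc | hc
  · rw [hc] at hx
    have : 0 < up s (x - a) n := by omega
    unfold up at this
    rw [card_pos] at this
    obtain ⟨k, hk⟩ := this
    rw [mem_filter, mem_range] at hk
    have h7 := walk_abs h k
    rw [abs_le] at h7
    have : (k : ℤ) < n := by exact_mod_cast hk.1
    omega
  · rw [hc] at hx
    have : 0 < dn s (x - b) n := by omega
    unfold dn at this
    rw [card_pos] at this
    obtain ⟨k, hk⟩ := this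
    rw [mem_filter, mem_range] at hk
    have h7 := walk_abs h k
    rw [abs_le] at h7
    have : (k : ℤ) < n := by exact_mod_cast hk.1
    omega

/-- only one site is affected by a step -/
theorem Xi_succ {a b : ℤ} (hab : a + b = 1) {s : ℕ → ℤ} (h : IsWalk s) (n : ℕ) :
    ∃ x₀, (∀ x, x ≠ x₀ → Xi a b s x (n + 1) = Xi a b s x n) ∧
      Mx s (n + 1) = max (Mx s n) (Xi a b s x₀ (n + 1)) := by
  have hle : ∀ y, Xi a b s y (n + 1) ≤ Mx s (n + 1) := fun y =>
    max_le (up_dn_le s (n + 1) _).1 (up_dn_le s (n + 1) _).2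
  have hmono : Mx s n ≤ Mx s (n + 1) := Mx_mono s (Nat.le_succ n)
  have hm : Mx s (n + 1) =
      max (Mx s n) (if s (n + 1) = s n + 1 then up s (s n) (n + 1) else dn s (s (n + 1)) (n + 1)) := rfl
  rcases h.step n with h1 | h1
  · refine ⟨s n + a, ?_, ?_⟩
    · intro x hx
      unfold Xi
      rw [up_succ, dn_succ, if_neg (by rintro ⟨h2, -⟩; apply hx; rw [h2]; ring),
        if_neg (by rintro ⟨h2, h3⟩; omega), add_zero, add_zero]
    · apply le_antisymm
      · rw [hm, if_pos h1]
        apply max_le_max le_rfl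
        unfold Xi
        rw [add_sub_cancel_right]
        exact le_max_left _ _
      · exact max_le hmono (hle _)
  · refine ⟨s (n + 1) + b, ?_, ?_⟩
    · intro x hx
      unfold Xi
      rw [up_succ, dn_succ, if_neg (by rintro ⟨h2, h3⟩; omega),
        if_neg (by rintro ⟨h2, h3⟩; apply hx; rw [h3]; ring), add_zero, add_zero]
    · apply le_antisymm
      · rw [hm, if_neg (by omega)]
        apply max_le_max le_rfl
        unfold Xi
        rw [add_sub_cancel_right]
        exact le_max_right _ _
      · exact max_le hmono (hle _)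

theorem Ks_succ_card {a b : ℤ} (hab : a + b = 1) {s : ℕ → ℤ} (h : IsWalk s) {n : ℕ}
    (hM : 1 ≤ Mx s n) : (Ks a b s (n + 1)).ncard ≤ (Ks a b s n).ncard + 1 := by
  obtain ⟨x₀, h1, h2⟩ := Xi_succ hab h n
  have hsub : Ks a b s (n + 1) ⊆ insert x₀ (Ks a b s n) := by
    intro x hx
    by_cases hx0 : x = x₀
    · exact Or.inl hx0
    · right
      rw [mem_Ks] at hx ⊢
      rw [h1 x hx0] at hx
      have h3 : Xi a b s x n ≤ Mx s n := max_le (up_dn_le s n _).1 (up_dn_le s n _).2
      have h4 : Mx s n ≤ Mx s (n + 1) := Mx_mono s (Nat.le_succ n)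
      omega
  calc (Ks a b s (n + 1)).ncard ≤ (insert x₀ (Ks a b s n)).ncard :=
        Set.ncard_le_ncard hsub ((Ks_finite h hM).insert _)
    _ ≤ _ := Set.ncard_insert_le _ _

theorem Ks_reset {a b : ℤ} (hab : a + b = 1) {s : ℕ → ℤ} (h : IsWalk s) {n : ℕ}
    (hg : Mx s n < Mx s (n + 1)) : (Ks a b s (n + 1)).ncard ≤ 1 := by
  obtain ⟨x₀, h1, h2⟩ := Xi_succ hab h n
  have hsub : Ks a b s (n + 1) ⊆ {x₀} := by
    intro x hx
    by_contra hx0
    rw [mem_Ks, h1 x hx0] at hx
    have h3 : Xi a b s x n ≤ Mx s n := max_le (up_dn_le s n _).1 (up_dn_le s n _).2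
    omega
  calc (Ks a b s (n + 1)).ncard ≤ ({x₀} : Set ℤ).ncard := Set.ncard_le_ncard hsub
    _ = 1 := Set.ncard_singleton _

/-- discrete intermediate values -/
theorem hits_three {f : ℕ → ℕ} {p q : ℕ} (hpq : p ≤ q) (hp : f p ≤ 2) (hq : 4 ≤ f q)
    (hf : ∀ n, p ≤ n → f (n + 1) ≤ f n + 1) : ∃ n, p ≤ n ∧ n ≤ q ∧ f n = 3 := by
  by_contra hc
  push Not at hc
  have : ∀ k, p + k ≤ q → f (p + k) ≤ 2 := by
    intro k
    induction k with
    | zero => intro _; exact hp
    | succ k ih =>
      intro hk
      have h1 := ih (by omega)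
      have h2 := hf (p + k) (by omega)
      have h3 := hc (p + (k + 1)) (by omega) hk
      have : p + (k + 1) = p + k + 1 := by ring
      rw [this] at h3 ⊢
      omega
  have := this (q - p) (by omega)
  rw [Nat.add_sub_cancel' hpq] at this
  omega

theorem three_often {a b : ℤ} (hab : a + b = 1) {s : ℕ → ℤ} (h : IsWalk s)
    (hi : {n | 4 ≤ (Ks a b s n).ncard ∧ Mx s n < Mx s (n + 1)}.Infinite) :
    {n | 1 ≤ n ∧ (Ks a b s n).ncard = 3}.Infinite := by
  rw [Set.infinite_iff_exists_gt] at hi ⊢
  intro N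
  obtain ⟨p, ⟨hp1, hp2⟩, hp⟩ := hi N
  obtain ⟨q, ⟨hq1, -⟩, hq⟩ := hi (p + 1)
  have hM : 1 ≤ Mx s (p + 1) := by omega
  obtain ⟨n, h1, -, h3⟩ := hits_three (f := fun n => (Ks a b s n).ncard) (p := p + 1) (q := q)
    (by omega) (le_trans (Ks_reset hab h hp2) (by norm_num)) hq1
    (fun n hn => Ks_succ_card hab h (hM.trans (Mx_mono s hn)))
  exact ⟨n, ⟨by omega, h3⟩, by omega⟩

/-! ### the crossing of a positive excursion -/

/-- a return to `0` at which an edge on the negative side is a favourite one and the edge `(0, 1)` is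
not -/
def Good (s : ℕ → ℤ) (n : ℕ) : Prop := s n = 0 ∧ ∃ x < 0, up s x n = Mx s n ∧ up s 0 n < Mx s n

theorem four_of_cross {a b : ℤ} (hab : (a = 0 ∧ b = 1) ∨ (a = 1 ∧ b = 0)) {s : ℕ → ℤ} (h : IsWalk s)
    {t n : ℕ} (htn : t ≤ n) (hg : Good s t) (hpos : ∀ k, t < k → k ≤ n → 0 < s k)
    (hn : Mx s t < Mx s n) :
    ∃ k, t ≤ k ∧ k < n ∧ 4 ≤ (Ks a b s k).ncard ∧ Mx s k < Mx s (k + 1) := by
  obtain ⟨h0, x, hx, hxM, h0M⟩ := hg
  -- the first time at which the maximum grows
  have hex : ∃ k, t ≤ k ∧ Mx s k < Mx s (k + 1) := by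
    by_contra hc
    push Not at hc
    have : ∀ j, Mx s (t + j) ≤ Mx s t := by
      intro j
      induction j with
      | zero => exact le_refl _
      | succ j ih => exact (hc (t + j) (by omega)).trans ih
    have := this (n - t)
    rw [Nat.add_sub_cancel' htn] at this
    omega
  classical
  obtain ⟨k, ⟨hk1, hk2⟩, hmin0⟩ : ∃ k, (t ≤ k ∧ Mx s k < Mx s (k + 1)) ∧
      ∀ j < k, ¬ (t ≤ j ∧ Mx s j < Mx s (j + 1)) :=
    ⟨Nat.find hex, Nat.find_spec hex, fun j hj => Nat.find_min hex hj⟩
  have hmin : ∀ j, t ≤ j → j < k → Mx s (j + 1) ≤ Mx s j := by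
    intro j hj1 hj2
    have := hmin0 j hj2
    push Not at this
    exact this hj1
  have hconst : ∀ j, t + j ≤ k → Mx s (t + j) = Mx s t := by
    intro j
    induction j with
    | zero => intro _; rfl
    | succ j ih =>
      intro hj
      have h1 := ih (by omega)
      have h2 := hmin (t + j) (by omega) (by omega)
      have h3 : Mx s (t + j) ≤ Mx s (t + j + 1) := Mx_mono s (Nat.le_succ _)
      have : t + (j + 1) = t + j + 1 := by ring
      rw [this]
      omega
  have hMk : Mx s k = Mx s t := by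
    have := hconst (k - t) (by omega)
    rwa [Nat.add_sub_cancel' hk1] at this
  have hkn : k < n := by
    by_contra hc
    push Not at hc
    have := Mx_mono s hc
    omega
  have hk2' : Mx s k < Mx s (k + 1) := hk2
  refine ⟨k, hk1, hkn, ?_, hk2'⟩
  have hskpos : 0 < s (k + 1) := hpos (k + 1) (by omega) (by omega)
  have hsk0 : 0 ≤ s k := by
    rcases Nat.eq_or_lt_of_le hk1 with h1 | h1
    · rw [← h1, h0]
    · exact (hpos k h1 hkn.le).le
  -- counts on the negative side do not change
  have hneg : ∀ y < 0, ∀ j, t + j ≤ k → up s y (t + j) = up s y t := by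
    intro y hy j
    induction j with
    | zero => intro _; rfl
    | succ j ih =>
      intro hj
      have : t + (j + 1) = t + j + 1 := by ring
      rw [this, up_succ, ih (by omega), if_neg, add_zero]
      rintro ⟨h1, -⟩
      rcases Nat.eq_zero_or_pos j with hj0 | hj0
      · rw [hj0, add_zero, h0] at h1; omega
      · have := hpos (t + j) (by omega) (by omega)
        omega
  have hupx : up s x k = Mx s k := by
    have := hneg x hx (k - t) (by omega)
    rw [Nat.add_sub_cancel' hk1] at this
    rw [this, hxM, hMk]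
  have hdnx : dn s x k = Mx s k := by
    have := up_sub_dn h x k
    rw [if_pos (by omega), if_pos hx] at this
    omega
  -- the edge which grows
  rcases Mx_grow h hk2' with ⟨h1, h2⟩ | ⟨h1, h2⟩
  · have hsk1 : 1 ≤ s k := by
      by_contra hc
      have hk0 : s k = 0 := by omega
      have hkt : k = t := by
        by_contra hne
        have := hpos k (by omega) hkn.le
        omega
      rw [hk0, hkt] at h2
      omega
    have hdn : dn s (s k) k = Mx s k := by
      have := up_sub_dn h (s k) k
      rw [if_neg (lt_irrefl _), if_neg (by omega)] at this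
      omega
    have hsub : ({x, x + 1, s k, s k + 1} : Finset ℤ) ⊆ (Ks_finite (a := a) (b := b) h
        (n := k) (by omega)).toFinset := by
      intro y hy
      rw [Set.Finite.mem_toFinset, mem_Ks]
      have hle := up_dn_le s k
      simp only [mem_insert, mem_singleton] at hy
      unfold Xi
      have h3 := hle (y - a)
      have h4 := hle (y - b)
      apply le_antisymm (max_le h3.1 h4.2)
      rcases hab with ⟨ha, hb⟩ | ⟨ha, hb⟩ <;> subst ha <;> subst hb
      · rcases hy with hy | hy | hy | hy <;> subst hy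
        · rw [sub_zero, hupx]; exact le_max_left _ _
        · rw [add_sub_cancel_right, hdnx]; exact le_max_right _ _
        · rw [sub_zero, h2]; exact le_max_left _ _
        · rw [add_sub_cancel_right, hdn]; exact le_max_right _ _
      · rcases hy with hy | hy | hy | hy <;> subst hy
        · rw [sub_zero, hdnx]; exact le_max_right _ _
        · rw [add_sub_cancel_right, hupx]; exact le_max_left _ _
        · rw [sub_zero, hdn]; exact le_max_right _ _
        · rw [add_sub_cancel_right, h2]; exact le_max_left _ _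
    have hcard : ({x, x + 1, s k, s k + 1} : Finset ℤ).card = 4 := by
      rw [card_insert_of_notMem, card_insert_of_notMem, card_insert_of_notMem, card_singleton]
      · simp
      · simp only [mem_insert, mem_singleton]; omega
      · simp only [mem_insert, mem_singleton]; omega
    rw [Set.ncard_eq_toFinset_card _ (Ks_finite (a := a) (b := b) h (n := k) (by omega)), ← hcard]
    exact card_le_card hsub
  · exfalso
    have := up_sub_dn h (s k - 1) k
    have h5 := (up_dn_le s (k + 1) (s k - 1)).1
    have h6 : up s (s k - 1) (k + 1) = up s (s k - 1) k := by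
      rw [up_succ, if_neg (by omega), add_zero]
    have h7 : Mx s (k + 1) ≤ Mx s k + 1 := Mx_succ_le s k
    have h8 : dn s (s k - 1) (k + 1) = Mx s k + 1 := by
      rw [dn_succ, if_pos ⟨by ring, h1⟩, h2]
    have h9 := up_sub_dn h (s k - 1) (k + 1)
    rw [h8, h1, if_neg (by omega), if_neg (by omega), h6] at h9
    rw [if_pos (by omega), if_neg (by omega), h2] at this
    have h10 := (up_dn_le s k (s k - 1)).1
    omega

end Q295.Fav
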