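import Pool.Agent.Q295.Fav.Path

/-! Reflection and parity. -/

set_option autoImplicit false

namespace Q295.Fav

open Finset Classical

/-- the reflected path -/
def ng (s : ℕ → ℤ) : ℕ → ℤ := fun n => - s n

theorem ng_walk {s : ℕ → ℤ} (h : IsWalk s) : IsWalk (ng s) := by
  refine ⟨by simp [ng, h.zero], fun k => ?_⟩
  unfold ng
  rcases h.step k with h1 | h1 <;> rw [h1]
  · right; ring
  · left; ring

theorem up_ng (s : ℕ → ℤ) (x : ℤ) (n : ℕ) : up (ng s) x n = dn s (-x - 1) n := by
  unfold up dn ng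
  congr 1
  apply filter_congr
  intro k _
  constructor <;> rintro ⟨h1, h2⟩ <;> constructor <;> omega

theorem dn_ng (s : ℕ → ℤ) (x : ℤ) (n : ℕ) : dn (ng s) x n = up s (-x - 1) n := by
  unfold up dn ng
  congr 1
  apply filter_congr
  intro k _
  constructor <;> rintro ⟨h1, h2⟩ <;> constructor <;> omega

theorem Mx_ng (s : ℕ → ℤ) (n : ℕ) : Mx (ng s) n = Mx s n := by
  apply le_antisymm
  · obtain ⟨x, hx | hx⟩ := attained (ng s) n
    · rw [← hx, up_ng]; exact (up_dn_le s n _).2
    · rw [← hx, dn_ng]; exact (up_dn_le s n _).1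
  · obtain ⟨x, hx | hx⟩ := attained s n
    · rw [← hx]
      have := (up_dn_le (ng s) n (-x - 1)).2
      rwa [dn_ng, show - (-x - 1) - 1 = x by ring] at this
    · rw [← hx]
      have := (up_dn_le (ng s) n (-x - 1)).1
      rwa [up_ng, show - (-x - 1) - 1 = x by ring] at this

theorem Xi_ng {a b : ℤ} (hab : a + b = 1) (s : ℕ → ℤ) (x : ℤ) (n : ℕ) :
    Xi a b (ng s) x n = Xi a b s (-x) n := by
  unfold Xi
  rw [up_ng, dn_ng, max_comm]
  congr 2
  · omega
  · omega

theorem Ks_ng {a b : ℤ} (hab : a + b = 1) (s : ℕ → ℤ) (n : ℕ) :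
    (Ks a b (ng s) n).ncard = (Ks a b s n).ncard := by
  have : Ks a b (ng s) n = (fun x => -x) '' Ks a b s n := by
    ext x
    rw [mem_Ks, Xi_ng hab, Mx_ng, Set.mem_image]
    constructor
    · intro h
      exact ⟨-x, by rw [mem_Ks]; exact h, by ring⟩
    · rintro ⟨y, hy, rfl⟩
      rw [mem_Ks] at hy
      rwa [neg_neg]
  rw [this, Set.ncard_image_of_injective _ neg_injective]

/-- number of the visits to `0` before time `n` -/
noncomputable def L0 (s : ℕ → ℤ) (n : ℕ) : ℕ := up s 0 n + dn s (-1) n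

theorem L0_succ {s : ℕ → ℤ} (h : IsWalk s) (n : ℕ) :
    L0 s (n + 1) = L0 s n + if s n = 0 then 1 else 0 := by
  unfold L0
  rw [up_succ, dn_succ]
  rcases h.step n with h1 | h1 <;> split_ifs <;> omega

theorem good_or {s : ℕ → ℤ} (h : IsWalk s) {n : ℕ} (h0 : s n = 0) (hodd : L0 s n % 2 = 1) :
    Good s n ∨ Good (ng s) n := by
  have hbal : ∀ x, up s x n = dn s x n := by
    intro x
    have := up_sub_dn h x n
    rw [h0] at this
    omega
  have hle := up_dn_le s n
  obtain ⟨e, he⟩ : ∃ e, up s e n = Mx s n := by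
    obtain ⟨e, he | he⟩ := attained s n
    · exact ⟨e, he⟩
    · exact ⟨e, by rw [hbal, he]⟩
  have hg : ∀ x, x < 0 → up s x n = Mx s n → up s 0 n < Mx s n → Good s n :=
    fun x hx h1 h2 => ⟨h0, x, hx, h1, h2⟩
  have hg' : ∀ x, 0 ≤ x → up s x n = Mx s n → up s (-1) n < Mx s n → Good (ng s) n := by
    intro x hx h1 h2
    refine ⟨by simp [ng, h0], -x - 1, by omega, ?_, ?_⟩
    · rw [up_ng, Mx_ng, show - (-x - 1) - 1 = x by ring, ← hbal, h1]
    · rw [up_ng, Mx_ng, show (-0 - 1 : ℤ) = -1 by ring, ← hbal]; exact h2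
  have h1 := (hle 0).1
  have h2 := (hle (-1)).1
  have hL : L0 s n = up s 0 n + up s (-1) n := by unfold L0; rw [hbal (-1)]
  rw [hL] at hodd
  rcases lt_or_ge e 0 with he0 | he0
  · by_cases hc : up s 0 n < Mx s n
    · exact Or.inl (hg e he0 he hc)
    · exact Or.inr (hg' 0 le_rfl (by omega) (by omega))
  · by_cases hc : up s (-1) n < Mx s n
    · exact Or.inr (hg' e he0 he hc)
    · exact Or.inl (hg (-1) (by norm_num) (by omega) (by omega))

/-- the weight of a return -/
noncomputable def wt (s : ℕ → ℤ) (n : ℕ) : ℝ := 1 / ((Mx s n : ℝ) + 1)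

theorem wt_pos (s : ℕ → ℤ) (n : ℕ) : 0 < wt s n := by unfold wt; positivity

theorem wt_anti (s : ℕ → ℤ) (n : ℕ) : wt s (n + 1) ≤ wt s n := by
  unfold wt
  have : (Mx s n : ℝ) ≤ Mx s (n + 1) := by exact_mod_cast Mx_mono s (Nat.le_succ n)
  apply one_div_le_one_div_of_le (by positivity)
  linarith

theorem alternate {s : ℕ → ℤ} (h : IsWalk s) (n : ℕ) :
    (L0 s n % 2 = 0 → ∑ k ∈ range n, (if s k = 0 ∧ L0 s k % 2 = 0 then wt s k else 0) + wt s n ≤
      ∑ k ∈ range n, (if s k = 0 ∧ L0 s k % 2 = 1 then wt s k else 0) + 1) ∧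
    ∑ k ∈ range n, (if s k = 0 ∧ L0 s k % 2 = 0 then wt s k else 0) ≤
      ∑ k ∈ range n, (if s k = 0 ∧ L0 s k % 2 = 1 then wt s k else 0) + 1 := by
  induction n with
  | zero =>
    constructor
    · intro _
      simp [wt, Mx]
    · simp
  | succ n ih =>
    obtain ⟨ih1, ih2⟩ := ih
    rw [sum_range_succ, sum_range_succ, L0_succ h]
    have hw := wt_anti s n
    have hp := wt_pos s n
    have hp1 := wt_pos s (n + 1)
    by_cases h0 : s n = 0
    · rcases Nat.mod_two_eq_zero_or_one (L0 s n) with hL | hL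
      · have h1 := ih1 hL
        rw [if_pos h0, if_pos ⟨h0, hL⟩, if_neg (by rintro ⟨-, h2⟩; omega)]
        constructor
        · intro h2; omega
        · linarith
      · rw [if_pos h0, if_neg (by rintro ⟨-, h2⟩; omega), if_pos ⟨h0, hL⟩]
        constructor
        · intro _; linarith
        · linarith
    · rw [if_neg h0, if_neg (by rintro ⟨h1, -⟩; exact h0 h1), if_neg (by rintro ⟨h1, -⟩; exact h0 h1)]
      simp only [add_zero]
      constructor
      · intro h2
        have := ih1 h2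
        linarith
      · exact ih2

theorem all_le {s : ℕ → ℤ} (h : IsWalk s) (n : ℕ) :
    ∑ k ∈ range n, (if s k = 0 then wt s k else 0) ≤
      2 * (∑ k ∈ range n, (if Good s k then wt s k else 0) +
        ∑ k ∈ range n, (if Good (ng s) k then wt (ng s) k else 0)) + 1 := by
  have h1 := (alternate h n).2
  have h2 : ∑ k ∈ range n, (if s k = 0 then wt s k else 0) =
      ∑ k ∈ range n, (if s k = 0 ∧ L0 s k % 2 = 0 then wt s k else 0) +
      ∑ k ∈ range n, (if s k = 0 ∧ L0 s k % 2 = 1 then wt s k else 0) := by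
    rw [← sum_add_distrib]
    apply sum_congr rfl
    intro k _
    by_cases h0 : s k = 0
    · rcases Nat.mod_two_eq_zero_or_one (L0 s k) with hL | hL <;> simp [h0, hL]
    · simp [h0]
  have h3 : ∑ k ∈ range n, (if s k = 0 ∧ L0 s k % 2 = 1 then wt s k else 0) ≤
      ∑ k ∈ range n, (if Good s k then wt s k else 0) +
        ∑ k ∈ range n, (if Good (ng s) k then wt (ng s) k else 0) := by
    rw [← sum_add_distrib]
    apply sum_le_sum
    intro k _
    have hp := wt_pos s k
    have hp' := wt_pos (ng s) k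
    have he : wt (ng s) k = wt s k := by unfold wt; rw [Mx_ng]
    by_cases hc : s k = 0 ∧ L0 s k % 2 = 1
    · rw [if_pos hc]
      rcases good_or h hc.1 hc.2 with hg | hg
      · rw [if_pos hg]
        split_ifs <;> linarith
      · rw [if_pos hg (c := Good (ng s) k)]
        rw [he]
        split_ifs <;> linarith
    · rw [if_neg hc]
      split_ifs <;> linarith
  linarith

end Q295.Fav
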