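import Pool.Agent.Q295.Fav.Mart
import Pool.Agent.Q295.Fav.Path2

/-! The returns of the walk, weighted by a function of the range, have infinite weight. -/

set_option autoImplicit false

namespace Q295.Fav

open MeasureTheory ProbabilityTheory Filter Topology Function Finset

/-- the walk driven by the bits -/
def wk (u : ℕ → Bool) (n : ℕ) : ℤ := ∑ k ∈ range n, (if u k = true then 1 else -1)

theorem wk_succ (u : ℕ → Bool) (n : ℕ) : wk u (n + 1) = wk u n + (if u n = true then 1 else -1) :=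
  sum_range_succ _ _

theorem wk_walk (u : ℕ → Bool) : IsWalk (wk u) := by
  refine ⟨by simp [wk], fun k => ?_⟩
  rw [wk_succ]
  split_ifs
  · left; ring
  · right; ring

theorem wk_congr {u v : ℕ → Bool} {n : ℕ} (h : ∀ k < n, u k = v k) : ∀ k ≤ n, wk u k = wk v k := by
  intro k hk
  unfold wk
  apply sum_congr rfl
  intro j hj
  rw [h j (lt_of_lt_of_le (mem_range.1 hj) hk)]

/-- a functional `G` of paths with increments `D` which depend on the past and the new position, and
which balance out -/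
structure Inc (G : (ℕ → ℤ) → ℕ → ℝ) (D : (ℕ → ℤ) → ℕ → ℤ → ℝ) : Prop where
  zero : ∀ s t, s 0 = t 0 → G s 0 = G t 0
  succ : ∀ s n, G s (n + 1) = G s n + D s n (s (n + 1))
  congr : ∀ s t n y, (∀ k ≤ n, s k = t k) → D s n y = D t n y
  bal : ∀ s n, IsWalk s → D s n (s n + 1) + D s n (s n - 1) = 0

theorem Inc.cong {G : (ℕ → ℤ) → ℕ → ℝ} {D : (ℕ → ℤ) → ℕ → ℤ → ℝ} (h : Inc G D) {s t : ℕ → ℤ} :
    ∀ n, (∀ k ≤ n, s k = t k) → G s n = G t n := by
  intro n
  induction n with
  | zero => intro hk; exact h.zero s t (hk 0 le_rfl)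
  | succ n ih =>
    intro hk
    rw [h.succ, h.succ, ih (fun k hkn => hk k (by omega)), hk (n + 1) le_rfl,
      h.congr s t n _ (fun k hkn => hk k (by omega))]

theorem Inc.adp {G : (ℕ → ℤ) → ℕ → ℝ} {D : (ℕ → ℤ) → ℕ → ℤ → ℝ} (h : Inc G D) :
    Adp (fun u n => G (wk u) n) := fun _ _ n huv => h.cong n (wk_congr huv)

theorem Inc.avg {G : (ℕ → ℤ) → ℕ → ℝ} {D : (ℕ → ℤ) → ℕ → ℤ → ℝ} (h : Inc G D) :
    Avg (fun u n => G (wk u) n) := by
  intro u n
  have h1 : ∀ c, ∀ k < n, update u n c k = u k := fun c k hk => update_of_ne (by omega) _ _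
  have h2 : ∀ c, ∀ k ≤ n, wk (update u n c) k = wk u k := fun c => wk_congr (h1 c)
  have h3 : ∀ c, G (wk (update u n c)) (n + 1) =
      G (wk u) n + D (wk u) n (wk (update u n c) (n + 1)) := by
    intro c
    rw [h.succ, h.cong n (h2 c), h.congr _ _ n _ (h2 c)]
  show G (wk (update u n true)) (n + 1) + G (wk (update u n false)) (n + 1) = 2 * G (wk u) n
  rw [h3, h3, wk_succ, wk_succ, h2 _ n le_rfl, h2 _ n le_rfl, update_self, update_self, if_pos rfl,
    if_neg (by simp)]
  have h4 := h.bal (wk u) n (wk_walk u)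
  rw [sub_eq_add_neg] at h4
  linarith

/-- the largest distance from the origin so far -/
def Rm (s : ℕ → ℤ) : ℕ → ℕ
  | 0 => (s 0).natAbs
  | n + 1 => max (Rm s n) (s (n + 1)).natAbs

theorem Rm_succ (s : ℕ → ℤ) (n : ℕ) : Rm s (n + 1) = max (Rm s n) (s (n + 1)).natAbs := rfl

theorem Rm_congr {s t : ℕ → ℤ} : ∀ n, (∀ k ≤ n, s k = t k) → Rm s n = Rm t n := by
  intro n
  induction n with
  | zero => intro h; show (s 0).natAbs = (t 0).natAbs; rw [h 0 le_rfl]
  | succ n ih =>
    intro h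
    rw [Rm_succ, Rm_succ, ih (fun k hk => h k (by omega)), h (n + 1) le_rfl]

theorem Rm_mono (s : ℕ → ℤ) : Monotone (Rm s) :=
  monotone_nat_of_le_succ fun n => by rw [Rm_succ]; exact le_max_left _ _

theorem le_Rm (s : ℕ → ℤ) {k n : ℕ} (h : k ≤ n) : (s k).natAbs ≤ Rm s n := by
  refine le_trans ?_ (Rm_mono s h)
  cases k with
  | zero => exact le_rfl
  | succ k => rw [Rm_succ]; exact le_max_right _ _

/-- the weight -/
noncomputable def fw (r : ℕ) : ℝ := 1 / ((r + 2) * Real.log (r + 2))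

theorem logpos (r : ℕ) : 1 / 2 < Real.log ((r : ℝ) + 2) := by
  have h1 : Real.log 2 ≤ Real.log ((r : ℝ) + 2) := by
    apply Real.log_le_log (by norm_num)
    have : (0 : ℝ) ≤ r := Nat.cast_nonneg r
    linarith
  have := Real.log_two_gt_d9
  linarith

theorem fw_pos (r : ℕ) : 0 < fw r := by
  have := logpos r
  unfold fw
  positivity

theorem fw_le (r : ℕ) : fw r ≤ 1 := by
  have := logpos r
  have h0 : (0 : ℝ) ≤ r := Nat.cast_nonneg r
  unfold fw
  rw [div_le_one (by positivity)]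
  nlinarith

theorem mul_fw_le (r : ℕ) : r * fw r ≤ 2 := by
  have := logpos r
  have h0 : (0 : ℝ) ≤ r := Nat.cast_nonneg r
  unfold fw
  rw [mul_one_div, div_le_iff₀ (by positivity)]
  nlinarith

theorem sum_fw (R : ℕ) : Real.log (Real.log ((R : ℝ) + 2)) - Real.log (Real.log 2) ≤
    ∑ r ∈ range R, fw r := by
  induction R with
  | zero => simp
  | succ R ih =>
    rw [sum_range_succ]
    have h1 := logpos R
    have h2 := logpos (R + 1)
    have h0 : (0 : ℝ) ≤ R := Nat.cast_nonneg R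
    push_cast at h2 ⊢
    have h3 : Real.log (Real.log ((R : ℝ) + 1 + 2)) - Real.log (Real.log ((R : ℝ) + 2)) ≤ fw R := by
      rw [← Real.log_div (by linarith) (by linarith)]
      have h4 := Real.log_le_sub_one_of_pos (x := Real.log ((R : ℝ) + 1 + 2) / Real.log ((R : ℝ) + 2))
        (by apply div_pos <;> linarith)
      have h5 : Real.log ((R : ℝ) + 1 + 2) - Real.log ((R : ℝ) + 2) ≤ 1 / ((R : ℝ) + 2) := by
        rw [← Real.log_div (by linarith) (by linarith)]
        have h6 := Real.log_le_sub_one_of_pos (x := ((R : ℝ) + 1 + 2) / ((R : ℝ) + 2))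
          (by positivity)
        have h7 : ((R : ℝ) + 1 + 2) / ((R : ℝ) + 2) - 1 = 1 / ((R : ℝ) + 2) := by
          field_simp; ring
        linarith
      have h8 : Real.log ((R : ℝ) + 1 + 2) / Real.log ((R : ℝ) + 2) - 1 =
          (Real.log ((R : ℝ) + 1 + 2) - Real.log ((R : ℝ) + 2)) / Real.log ((R : ℝ) + 2) := by
        rw [sub_div, div_self (by linarith)]
      have h9 : fw R = 1 / ((R : ℝ) + 2) / Real.log ((R : ℝ) + 2) := by
        unfold fw
        rw [div_div]
      rw [h9]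
      refine h4.trans ?_
      rw [h8]
      exact div_le_div_of_nonneg_right h5 (by linarith)
    linarith

theorem sum_fw_top : Tendsto (fun R => ∑ r ∈ range R, fw r) atTop atTop := by
  apply tendsto_atTop_mono sum_fw
  apply tendsto_atTop_add_const_right
  exact Real.tendsto_log_atTop.comp (Real.tendsto_log_atTop.comp
    (tendsto_atTop_add_const_right _ _ tendsto_natCast_atTop_atTop))

/-- the compensated functional -/
noncomputable def Nf (s : ℕ → ℤ) (n : ℕ) : ℝ :=
  ∑ k ∈ range n, fw (Rm s k) * (|(s (k + 1) : ℝ)| - |(s k : ℝ)| - if s k = 0 then 1 else 0)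

theorem Nf_inc : Inc Nf (fun s n y => fw (Rm s n) * (|(y : ℝ)| - |(s n : ℝ)| - if s n = 0 then 1 else 0))
    where
  zero s t _ := by simp [Nf]
  succ s n := by unfold Nf; rw [sum_range_succ]
  congr s t n y h := by
    show fw (Rm s n) * _ = fw (Rm t n) * _
    rw [Rm_congr n h, h n le_rfl]
  bal s n _ := by
    show fw (Rm s n) * _ + fw (Rm s n) * _ = 0
    rw [← mul_add]
    have : (|((s n + 1 : ℤ) : ℝ)| - |(s n : ℝ)| - if s n = 0 then 1 else 0) +
        (|((s n - 1 : ℤ) : ℝ)| - |(s n : ℝ)| - if s n = 0 then 1 else 0) = 0 := by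
      rcases lt_trichotomy (s n) 0 with h | h | h
      · have h1 : (s n : ℝ) ≤ -1 := by exact_mod_cast (by omega : s n ≤ -1)
        push_cast
        rw [if_neg h.ne, abs_of_nonpos (by linarith : (s n : ℝ) + 1 ≤ 0),
          abs_of_nonpos (by linarith : (s n : ℝ) - 1 ≤ 0), abs_of_nonpos (by linarith : (s n : ℝ) ≤ 0)]
        ring
      · rw [h]; norm_num
      · have h1 : (1 : ℝ) ≤ (s n : ℝ) := by exact_mod_cast (by omega : 1 ≤ s n)
        push_cast
        rw [if_neg h.ne', abs_of_nonneg (by linarith : 0 ≤ (s n : ℝ) + 1),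
          abs_of_nonneg (by linarith : 0 ≤ (s n : ℝ) - 1), abs_of_nonneg (by linarith : 0 ≤ (s n : ℝ))]
        ring
    rw [this, mul_zero]

theorem Nf_bdd {s : ℕ → ℤ} (h : IsWalk s) (n : ℕ) : |Nf s (n + 1) - Nf s n| ≤ 1 := by
  rw [Nf_inc.succ, add_sub_cancel_left, abs_mul, abs_of_pos (fw_pos _)]
  have h2 : |(|(s (n + 1) : ℝ)| - |(s n : ℝ)| - if s n = 0 then 1 else 0)| ≤ 1 := by
    rcases h.step n with h1 | h1
    · rw [h1]
      rcases lt_trichotomy (s n) 0 with h | h | h
      · have h1 : (s n : ℝ) ≤ -1 := by exact_mod_cast (by omega : s n ≤ -1)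
        push_cast
        rw [if_neg h.ne, abs_of_nonpos (by linarith : (s n : ℝ) + 1 ≤ 0),
          abs_of_nonpos (by linarith : (s n : ℝ) ≤ 0)]
        rw [abs_le]; constructor <;> linarith
      · rw [h]; norm_num
      · have h1 : (1 : ℝ) ≤ (s n : ℝ) := by exact_mod_cast (by omega : 1 ≤ s n)
        push_cast
        rw [if_neg h.ne', abs_of_nonneg (by linarith : 0 ≤ (s n : ℝ) + 1),
          abs_of_nonneg (by linarith : 0 ≤ (s n : ℝ))]
        rw [abs_le]; constructor <;> linarith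
    · rw [h1]
      rcases lt_trichotomy (s n) 0 with h | h | h
      · have h1 : (s n : ℝ) ≤ -1 := by exact_mod_cast (by omega : s n ≤ -1)
        push_cast
        rw [if_neg h.ne, abs_of_nonpos (by linarith : (s n : ℝ) - 1 ≤ 0),
          abs_of_nonpos (by linarith : (s n : ℝ) ≤ 0)]
        rw [abs_le]; constructor <;> linarith
      · rw [h]; norm_num
      · have h1 : (1 : ℝ) ≤ (s n : ℝ) := by exact_mod_cast (by omega : 1 ≤ s n)
        push_cast
        rw [if_neg h.ne', abs_of_nonneg (by linarith : 0 ≤ (s n : ℝ) - 1),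
          abs_of_nonneg (by linarith : 0 ≤ (s n : ℝ))]
        rw [abs_le]; constructor <;> linarith
  calc fw (Rm s n) * _ ≤ 1 * 1 := mul_le_mul (fw_le _) h2 (abs_nonneg _) zero_le_one
    _ = 1 := one_mul 1

/-- the identity -/
theorem ident {s : ℕ → ℤ} (h : IsWalk s) (n : ℕ) :
    ∑ k ∈ range n, (if s k = 0 then fw (Rm s k) else 0) + Nf s n =
      |(s n : ℝ)| * fw (Rm s n) + ∑ r ∈ range (Rm s n), fw r - Rm s n * fw (Rm s n) := by
  induction n with
  | zero =>
    have : Rm s 0 = 0 := by show (s 0).natAbs = 0; rw [h.zero]; rfl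
    rw [this, h.zero]
    simp [Nf]
  | succ n ih =>
    rw [sum_range_succ, Nf_inc.succ]
    have h1 : (if s n = 0 then fw (Rm s n) else 0) = fw (Rm s n) * (if s n = 0 then 1 else 0) := by
      split_ifs <;> simp
    have h2 : (s n).natAbs ≤ Rm s n := le_Rm s le_rfl
    have h3 : ((s n).natAbs : ℝ) = |(s n : ℝ)| := by rw [Nat.cast_natAbs, Int.cast_abs]
    have h4 : ((s (n + 1)).natAbs : ℝ) = |(s (n + 1) : ℝ)| := by rw [Nat.cast_natAbs, Int.cast_abs]
    rcases le_or_gt (s (n + 1)).natAbs (Rm s n) with h5 | h5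
    · have h6 : Rm s (n + 1) = Rm s n := by rw [Rm_succ]; exact max_eq_left h5
      rw [h6, h1]
      linarith
    · have h7 : (s (n + 1)).natAbs ≤ (s n).natAbs + 1 := by
        rcases h.step n with h8 | h8 <;> omega
      have h8 : (s n).natAbs = Rm s n := by omega
      have h9 : Rm s (n + 1) = Rm s n + 1 := by
        rw [Rm_succ, max_eq_right h5.le]; omega
      have h10 : (s (n + 1)).natAbs = Rm s n + 1 := by omega
      rw [h9, sum_range_succ, h1, ← h4, h10]
      rw [← h3, h8] at ih ⊢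
      push_cast
      linarith

theorem unbounded_of {s : ℕ → ℤ} (h : IsWalk s)
    (hb : BddAbove (Set.range fun n => (s n : ℝ)) ↔ ∃ c, Tendsto (fun n => (s n : ℝ)) atTop (𝓝 c)) :
    Tendsto (Rm s) atTop atTop := by
  apply tendsto_atTop_atTop_of_monotone (Rm_mono s)
  by_contra hc
  push Not at hc
  obtain ⟨B, hB⟩ := hc
  have h1 : BddAbove (Set.range fun n => (s n : ℝ)) := by
    refine ⟨(B : ℝ), ?_⟩
    rintro _ ⟨n, rfl⟩
    have h2 := le_Rm s (le_refl n)
    have h3 := hB n
    have h4 : s n ≤ B := by omega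
    show (s n : ℝ) ≤ B
    exact_mod_cast h4
  obtain ⟨c, hcc⟩ := hb.1 h1
  have h5 := (tendsto_add_atTop_iff_nat 1).2 hcc
  have h6 := (h5.sub hcc).norm
  rw [sub_self, norm_zero] at h6
  have h7 : ∀ n, ‖(s (n + 1) : ℝ) - s n‖ = 1 := by
    intro n
    rcases h.step n with h8 | h8 <;> rw [h8] <;> push_cast
    · rw [add_sub_cancel_left, norm_one]
    · rw [show (s n : ℝ) - 1 - s n = -1 by ring, norm_neg, norm_one]
  rw [show (fun n => ‖(s (n + 1) : ℝ) - s n‖) = fun _ => (1 : ℝ) from funext h7] at h6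
  exact zero_ne_one (tendsto_nhds_unique h6 tendsto_const_nhds)

theorem id_inc : Inc (fun s n => (s n : ℝ)) (fun s n y => (y : ℝ) - s n) where
  zero s t h := by show (s 0 : ℝ) = t 0; rw [h]
  succ s n := by show (s (n + 1) : ℝ) = s n + (s (n + 1) - s n); ring
  congr s t n y h := by show (y : ℝ) - s n = y - t n; rw [h n le_rfl]
  bal s n _ := by
    show ((s n + 1 : ℤ) : ℝ) - s n + (((s n - 1 : ℤ) : ℝ) - s n) = 0
    push_cast; ring

variable {Ω : Type*} [mΩ : MeasurableSpace Ω] {μ : Measure Ω}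

theorem Rm_top [IsProbabilityMeasure μ] {b : ℕ → Ω → Bool} (hb : ∀ k, Measurable (b k))
    (hi : iIndepFun b μ) (hfair : ∀ n, μ {ω | b n ω = true} = 1 / 2) :
    ∀ᵐ ω ∂μ, Tendsto (Rm (wk (fun k => b k ω))) atTop atTop := by
  filter_upwards [bdd_iff (R := 1) id_inc.adp id_inc.avg (by
    intro u n
    show |(wk u (n + 1) : ℝ) - wk u n| ≤ 1
    rcases (wk_walk u).step n with h | h <;> rw [h] <;> push_cast
    · rw [add_sub_cancel_left, abs_one]
    · rw [show (wk u n : ℝ) - 1 - wk u n = -1 by ring, abs_neg, abs_one]) hb hi hfair] with ω h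
  exact unbounded_of (wk_walk _) h

/-- the weighted number of the returns is infinite -/
theorem returns [IsProbabilityMeasure μ] {b : ℕ → Ω → Bool} (hb : ∀ k, Measurable (b k))
    (hi : iIndepFun b μ) (hfair : ∀ n, μ {ω | b n ω = true} = 1 / 2) :
    ∀ᵐ ω ∂μ, ∀ B : ℝ, ∃ n, B < ∑ k ∈ range n, (if wk (fun j => b j ω) k = 0 then
      fw (Rm (wk (fun j => b j ω)) k) else 0) := by
  have hadp : Adp (fun u n => - Nf (wk u) n) := fun u v n huv => by
    have h1 : Nf (wk u) n = Nf (wk v) n := Nf_inc.adp u v n huv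
    show - Nf (wk u) n = - Nf (wk v) n
    rw [h1]
  have havg : Avg (fun u n => - Nf (wk u) n) := fun u n => by
    have := Nf_inc.avg u n
    show - Nf (wk (update u n true)) (n + 1) + - Nf (wk (update u n false)) (n + 1) =
      2 * - Nf (wk u) n
    linarith
  have hbd : ∀ u n, |(- Nf (wk u) (n + 1)) - (- Nf (wk u) n)| ≤ 1 := by
    intro u n
    rw [show (- Nf (wk u) (n + 1)) - (- Nf (wk u) n) = -(Nf (wk u) (n + 1) - Nf (wk u) n) by ring,
      abs_neg]
    exact Nf_bdd (wk_walk u) n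
  filter_upwards [not_bot hadp havg hbd hb hi hfair, Rm_top hb hi hfair] with ω h1 h2
  by_contra hc
  push Not at hc
  obtain ⟨B, hB⟩ := hc
  apply h1
  set s := wk (fun k => b k ω) with hs
  have h3 : ∀ n, - Nf s n ≤ - (∑ r ∈ range (Rm s n), fw r) + (B + 2) := by
    intro n
    have h4 := ident (wk_walk (fun k => b k ω)) n
    rw [← hs] at h4
    have h5 := hB n
    have h6 := mul_fw_le (Rm s n)
    have h7 : 0 ≤ |(s n : ℝ)| * fw (Rm s n) := mul_nonneg (abs_nonneg _) (fw_pos _).le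
    linarith
  apply tendsto_atBot_mono h3
  apply tendsto_atBot_add_const_right
  exact tendsto_neg_atTop_atBot.comp (sum_fw_top.comp h2)

end Q295.Fav
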